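import Pool.Agent.U4.JC.Pt
import Pool.Agent.H986R2.K4.RG

set_option autoImplicit false

/-!
# The property `P2`: to the right the polynomial looks like the xi function
-/

namespace Pool.Agent.U4.JC

open Complex Filter Topology MeasureTheory Set
open Pool.Agent.H24R2.JP (XX HH Om FF jensen Hyperbolic)

/-- `F` in the coordinate `u` -/
noncomputable def qq (T xp : ℝ) (u : ℂ) : ℂ := FF (xx T xp u)

theorem xx_hasDeriv (T xp : ℝ) (u : ℂ) : HasDerivAt (xx T xp) (2 * I * T) u := by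
  have h : HasDerivAt (fun u : ℂ => ((xp ^ 2 - T ^ 2 : ℝ) : ℂ) + (2 * I * T) * u)
      ((2 * I * T) * 1) u := ((hasDerivAt_id u).const_mul (2 * I * (T : ℂ))).const_add _
  rw [mul_one] at h
  exact h

theorem qq_diff (T xp : ℝ) : Differentiable ℂ (qq T xp) := fun u =>
  (FF_diff _).comp u (xx_hasDeriv T xp u).differentiableAt

/-- the logarithmic derivative of `qq` -/
theorem qq_logDeriv (T xp : ℝ) (u z : ℂ) (hz : z ^ 2 = xx T xp u) (hz0 : z ≠ 0) :
    logDeriv (qq T xp) u = I * T / z * logDeriv XX z := by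
  have h1 : HasDerivAt (qq T xp) (deriv FF (xx T xp u) * (2 * I * T)) u :=
    (FF_diff _).hasDerivAt.comp u (xx_hasDeriv T xp u)
  have h2 : HasDerivAt XX (deriv FF (z ^ 2) * (2 * z)) z := by
    have h3 : HasDerivAt (fun w : ℂ => w ^ 2) (2 * z) z := by
      simpa using hasDerivAt_pow 2 z
    have h4 := HasDerivAt.comp z (FF_diff (z ^ 2)).hasDerivAt h3
    have e : (FF ∘ fun w : ℂ => w ^ 2) = XX := by
      funext w
      exact Pool.Agent.H24R2.JP.b1.2.1 w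
    rwa [e] at h4
  rw [logDeriv_apply, logDeriv_apply, h1.deriv, h2.deriv, hz]
  have h5 : qq T xp u = XX z := by
    unfold qq
    rw [← hz, Pool.Agent.H24R2.JP.b1.2.1]
  rw [h5]
  field_simp

/-- a quotient close to `1` -/
theorem quot_log {p q : ℂ → ℂ} (hp : Differentiable ℂ p) (hq : Differentiable ℂ q) {u : ℂ} {r τ : ℝ}
    (hr : 0 < r) (hτ : 0 ≤ τ) (hτ1 : τ ≤ 1 / 2)
    (h : ∀ v : ℂ, ‖v - u‖ ≤ r → q v ≠ 0 ∧ ‖p v - q v‖ ≤ τ * ‖q v‖) :
    p u ≠ 0 ∧ ‖logDeriv p u - logDeriv q u‖ ≤ 2 * τ / r ∧ ‖q u‖ / 2 ≤ ‖p u‖ ∧ ‖p u‖ ≤ 2 * ‖q u‖ := by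
  obtain ⟨h1, h2⟩ := h u (by simpa using hr.le)
  have hqp : 0 < ‖q u‖ := norm_pos_iff.2 h1
  have h3 : ‖q u‖ / 2 ≤ ‖p u‖ := by
    have h4 := norm_sub_norm_le (q u) (p u)
    rw [norm_sub_rev] at h4
    nlinarith
  have h5 : ‖p u‖ ≤ 2 * ‖q u‖ := by
    have h4 := norm_sub_norm_le (p u) (q u)
    nlinarith
  have hp0 : p u ≠ 0 := by
    intro h0
    rw [h0, norm_zero] at h3
    linarith
  refine ⟨hp0, ?_, h3, h5⟩
  set f : ℂ → ℂ := fun v => p v / q v - 1 with hf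
  have hd : ∀ v, ‖v - u‖ ≤ r → DifferentiableAt ℂ f v := fun v hv =>
    ((hp v).div (hq v) (h v hv).1).sub_const 1
  have hfb : ∀ v, ‖v - u‖ ≤ r → ‖f v‖ ≤ τ := by
    intro v hv
    obtain ⟨a1, a2⟩ := h v hv
    have e : f v = (p v - q v) / q v := by
      rw [hf]
      field_simp
    rw [e, norm_div, div_le_iff₀ (norm_pos_iff.2 a1)]
    exact a2
  have hdc : DiffContOnCl ℂ f (Metric.ball u r) := by
    refine DifferentiableOn.diffContOnCl ?_
    intro v hv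
    have hv' : v ∈ Metric.closedBall u r := by
      have := Metric.closure_ball_subset_closedBall (x := u) (ε := r)
      exact this hv
    exact (hd v (by simpa [dist_eq_norm] using hv')).differentiableWithinAt
  have h6 := Complex.norm_deriv_le_of_forall_mem_sphere_norm_le hr hdc (C := τ) (by
    intro v hv
    exact hfb v (le_of_eq (by simpa [dist_eq_norm] using hv)))
  have h7 : deriv f u = p u / q u * (logDeriv p u - logDeriv q u) := by
    have h8 : HasDerivAt f ((deriv p u * q u - p u * deriv q u) / q u ^ 2) u :=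
      ((hp u).hasDerivAt.div (hq u).hasDerivAt h1).sub_const 1
    rw [h8.deriv, logDeriv_apply, logDeriv_apply]
    field_simp
  rw [h7, norm_mul, norm_div] at h6
  have h9 : 1 / 2 ≤ ‖p u‖ / ‖q u‖ := by
    rw [le_div_iff₀ hqp]
    linarith
  have h10 : 1 / 2 * ‖logDeriv p u - logDeriv q u‖ ≤ τ / r :=
    (mul_le_mul_of_nonneg_right h9 (norm_nonneg _)).trans h6
  have h11 : 2 * τ / r = 2 * (τ / r) := by ring
  rw [h11]
  linarith

/-- the xi function to the right of `Re z = 5/8` -/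
theorem xi_right (ε' : ℝ) (hε' : 0 < ε') (hε'1 : ε' ≤ 1 / 16) : ∃ K T0 : ℝ, 1 ≤ K ∧ 400 ≤ T0 ∧
    ∀ (T : ℝ) (v : ℂ), T0 ≤ T → 9 / 16 ≤ v.re → ‖v‖ ≤ 20 →
      XX (I * T + v) ≠ 0 ∧ ‖logDeriv XX (I * T + v) - (Om T : ℂ)‖ ≤ K + 4 * ε' * Om T ∧
      Real.exp ((v.re - 4 * ε') * Om T - K) * ‖HH (I * T)‖ ≤ ‖XX (I * T + v)‖ ∧
      ‖XX (I * T + v)‖ ≤ Real.exp ((v.re + 4 * ε') * Om T + K) * ‖HH (I * T)‖ := by
  obtain ⟨K, hK, hHH⟩ := Pool.Agent.H986R2.K4.hh
  obtain ⟨T1, hT1, hHH⟩ := hHH 20 (by norm_num)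
  obtain ⟨t1, ht1, hZ⟩ := Pool.Agent.H986R2.K4.a1 ε' hε'
  refine ⟨20 * K, max (T1 + t1 + 20) 400, by linarith, le_max_right _ _, ?_⟩
  intro T v hT hv1 hv2
  have hTa : T1 + t1 + 20 ≤ T := (le_max_left _ _).trans hT
  have hT400 : 400 ≤ T := (le_max_right _ _).trans hT
  have hT0 : 0 < T := by linarith
  have hvim := abs_le.1 ((abs_im_le_norm v).trans hv2)
  obtain ⟨a1, a2, a3, a4, a5⟩ := hHH T v (by linarith) hv2
  have e1 : (1 / 2 + (I * (T : ℂ) + v)).re = 1 / 2 + v.re := by simp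
  have e2 : (1 / 2 + (I * (T : ℂ) + v)).im = T + v.im := by simp
  obtain ⟨b1, b2, b3, b4⟩ := hZ (1 / 2 + (I * (T : ℂ) + v)) (by rw [e1]; linarith)
    (by rw [e2]; linarith)
  rw [e2] at b2 b3 b4
  have him : 0 < (I * (T : ℂ) + v).im := by
    simp
    linarith
  obtain ⟨d1, d2⟩ := Pool.Agent.H986R2.K4.RGAux.logDeriv_XX _ him a1 a2 b1
  have hval : XX (I * T + v) = HH (I * T + v) * riemannZeta (1 / 2 + (I * T + v)) :=
    Pool.Agent.H24R2.JP.zetaS.1 _ him
  have hlog : Real.log T = 2 * Om T := by unfold Pool.Agent.H24R2.JP.Om; ring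
  have hlog2 : Real.log (T + v.im) ≤ 4 * Om T := by
    calc Real.log (T + v.im) ≤ Real.log (T ^ 2) := Real.log_le_log (by linarith) (by nlinarith)
      _ = 2 * Real.log T := by rw [Real.log_pow]; norm_num
      _ = 4 * Om T := by rw [hlog]; ring
  have hy0 : 0 < T + v.im := by linarith
  have hpw : (T + v.im) ^ ε' ≤ Real.exp (4 * ε' * Om T) := by
    rw [Real.rpow_def_of_pos hy0]
    apply Real.exp_le_exp.2
    calc Real.log (T + v.im) * ε' ≤ 4 * Om T * ε' := by gcongr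
      _ = _ := by ring
  have hpw' : Real.exp (-(4 * ε' * Om T)) ≤ (T + v.im) ^ (-ε') := by
    rw [Real.rpow_neg hy0.le, Real.exp_neg]
    exact inv_anti₀ (Real.rpow_pos_of_pos hy0 _) hpw
  refine ⟨d1, ?_, ?_, ?_⟩
  · rw [d2]
    have e3 : logDeriv HH (I * T + v) + logDeriv riemannZeta (1 / 2 + (I * T + v)) - (Om T : ℂ) =
        (logDeriv HH (I * T + v) - (Om T : ℂ)) + logDeriv riemannZeta (1 / 2 + (I * T + v)) := by
      ring
    rw [e3]
    calc ‖(logDeriv HH (I * T + v) - (Om T : ℂ)) + logDeriv riemannZeta (1 / 2 + (I * T + v))‖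
        ≤ ‖logDeriv HH (I * T + v) - (Om T : ℂ)‖ +
          ‖logDeriv riemannZeta (1 / 2 + (I * T + v))‖ := norm_add_le _ _
      _ ≤ K + ε' * (4 * Om T) := add_le_add a3 (b2.trans (by gcongr))
      _ ≤ 20 * K + 4 * ε' * Om T := by linarith
  · rw [hval, norm_mul]
    calc Real.exp ((v.re - 4 * ε') * Om T - 20 * K) * ‖HH (I * T)‖
        = (Real.exp (Om T * v.re - K * 20) * ‖HH (I * T)‖) * Real.exp (-(4 * ε' * Om T)) := by
          rw [mul_right_comm, ← Real.exp_add]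
          congr 2
          ring
      _ ≤ ‖HH (I * T + v)‖ * ‖riemannZeta (1 / 2 + (I * T + v))‖ := by
          gcongr
          exact hpw'.trans b3
  · rw [hval, norm_mul]
    calc ‖HH (I * T + v)‖ * ‖riemannZeta (1 / 2 + (I * T + v))‖
        ≤ (Real.exp (Om T * v.re + K * 20) * ‖HH (I * T)‖) * Real.exp (4 * ε' * Om T) := by
          gcongr
          exact b4.trans hpw
      _ = _ := by
          rw [mul_right_comm, ← Real.exp_add]
          congr 2
          ring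

/-- relative closeness -/
theorem rel (ε : ℝ) (hε : 0 < ε) (hε1 : ε ≤ 1) : ∃ T0 : ℝ, 2000 ≤ T0 ∧
    ∀ (T : ℝ) (D : ℕ) (xp : ℝ), T0 ≤ T → T ^ (2 + ε) ≤ D → (D : ℝ) ≤ T ^ (6 : ℝ) → |xp| ≤ 1 →
    ∀ v : ℂ, 5 / 8 ≤ v.re → v.re ≤ 12 → |v.im| ≤ 12 →
      qq T xp v ≠ 0 ∧ ‖pp D T xp v - qq T xp v‖ ≤ Real.exp (-(ε / 16 * Om T)) * ‖qq T xp v‖ := by
  obtain ⟨K, T1, hK, hT1, hx⟩ := xi_right (ε / 512) (by positivity) (by linarith)
  obtain ⟨T2, hT2, hc⟩ := cmpu ε (ε / 64) hε hε1 (by positivity)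
  obtain ⟨T3, hT3⟩ := eventually_atTop.1 (ev_exp (2 * Real.exp (2 * K)) (ε / 16) (by positivity))
  refine ⟨max (max T1 T2) (max T3 (64 * 1000 / ε)),
    hT2.trans ((le_max_right _ _).trans (le_max_left _ _)), ?_⟩
  intro T D xp hT hD1 hD2 hxp v hv1 hv2 hv3
  have hTT1 : T1 ≤ T := ((le_max_left _ _).trans (le_max_left _ _)).trans hT
  have hTT2 : T2 ≤ T := ((le_max_right _ _).trans (le_max_left _ _)).trans hT
  have hTT3 : T3 ≤ T := ((le_max_left _ _).trans (le_max_right _ _)).trans hT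
  have hTT4 : 64 * 1000 / ε ≤ T := ((le_max_right _ _).trans (le_max_right _ _)).trans hT
  have hT2000 : 2000 ≤ T := hT2.trans hTT2
  have hT0 : 0 < T := by linarith
  have hOm : 0 ≤ Om T := by
    unfold Pool.Agent.H24R2.JP.Om
    have := Real.log_nonneg (by linarith : (1 : ℝ) ≤ T)
    linarith
  have hvn : ‖v‖ ≤ 17 := norm_box (by rw [abs_le]; constructor <;> linarith) hv3
  obtain ⟨z, hz1, hz2⟩ := pt T xp v hT2000 hxp (by linarith)
  have h3 : 1000 / T ≤ ε / 64 := by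
    rw [div_le_iff₀ hT0]
    rw [div_le_iff₀ hε] at hTT4
    linarith
  have hz2' : ‖z - (I * T + v)‖ ≤ ε / 64 := hz2.trans h3
  have hq : qq T xp v = XX z := by
    unfold qq
    rw [← hz1, Pool.Agent.H24R2.JP.b1.2.1]
  set H := ‖HH (I * T)‖ with hH
  have hH0 : 0 ≤ H := norm_nonneg _
  have ez : I * (T : ℂ) + (z - I * T) = z := by ring
  have hvz : ‖(z - I * T) - v‖ ≤ ε / 64 := by
    have : (z - I * (T : ℂ)) - v = z - (I * T + v) := by ring
    rw [this]; exact hz2'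
  have hzre := abs_le.1 ((abs_re_le_norm ((z - I * T) - v)).trans hvz)
  rw [sub_re] at hzre
  have hzn : ‖z - I * T‖ ≤ 18 := by
    calc ‖z - I * T‖ = ‖((z - I * T) - v) + v‖ := by congr 1; ring
      _ ≤ ‖(z - I * T) - v‖ + ‖v‖ := norm_add_le _ _
      _ ≤ 18 := by linarith
  obtain ⟨c1, -, c3, -⟩ := hx T (z - I * T) hTT1 (by linarith) (by linarith)
  rw [ez] at c1 c3
  rw [hq]
  refine ⟨c1, ?_⟩
  set M : ℝ := Real.exp ((v.re + ε / 32 + ε / 128) * Om T + K) * H with hM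
  have hb : ∀ w : ℂ, ‖w - z‖ ≤ ε / 64 → ‖XX w‖ ≤ M := by
    intro w hw
    have hwz : ‖(w - I * T) - v‖ ≤ ε / 32 := by
      calc ‖(w - I * T) - v‖ = ‖(w - z) + ((z - I * T) - v)‖ := by congr 1; ring
        _ ≤ ‖w - z‖ + ‖(z - I * T) - v‖ := norm_add_le _ _
        _ ≤ ε / 32 := by linarith
    have hwre := abs_le.1 ((abs_re_le_norm ((w - I * T) - v)).trans hwz)
    rw [sub_re] at hwre
    have hwn : ‖w - I * T‖ ≤ 18 := by
      calc ‖w - I * T‖ = ‖((w - I * T) - v) + v‖ := by congr 1; ring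
        _ ≤ ‖(w - I * T) - v‖ + ‖v‖ := norm_add_le _ _
        _ ≤ 18 := by linarith
    obtain ⟨-, -, -, d4⟩ := hx T (w - I * T) hTT1 (by linarith) (by linarith)
    have ew : I * (T : ℂ) + (w - I * T) = w := by ring
    rw [ew] at d4
    refine d4.trans ?_
    rw [hM]
    have : ((w - I * T).re + 4 * (ε / 512)) * Om T + K ≤
        (v.re + ε / 32 + ε / 128) * Om T + K := by
      have : (w - I * T).re + 4 * (ε / 512) ≤ v.re + ε / 32 + ε / 128 := by linarith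
      gcongr
    gcongr
  have h7 := hc T D xp v z M hTT2 hD1 hD2 (by linarith) hz1 hz2 hb
  refine h7.trans ?_
  have hlow : Real.exp ((v.re - ε / 64 - ε / 128) * Om T - K) * H ≤ ‖XX z‖ := by
    refine le_trans ?_ c3
    have : (v.re - ε / 64 - ε / 128) * Om T - K ≤ ((z - I * T).re - 4 * (ε / 512)) * Om T - K := by
      have : v.re - ε / 64 - ε / 128 ≤ (z - I * T).re - 4 * (ε / 512) := by linarith
      gcongr
    gcongr
  have h13 := hT3 T hTT3
  have hA : T ^ (-(ε / 8)) * M = Real.exp ((v.re + ε / 32 + ε / 128 - ε / 4) * Om T + K) * H := by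
    rw [hM, T_exp hT0, ← mul_assoc, ← Real.exp_add]
    congr 2
    ring
  have hB : T⁻¹ * H ≤ Real.exp ((v.re + ε / 32 + ε / 128 - ε / 4) * Om T + K) * H := by
    rw [Tinv_exp hT0]
    have : -(2 * Om T) ≤ (v.re + ε / 32 + ε / 128 - ε / 4) * Om T + K := by nlinarith
    gcongr
  rw [hA]
  calc Real.exp ((v.re + ε / 32 + ε / 128 - ε / 4) * Om T + K) * H + T⁻¹ * H
      ≤ 2 * Real.exp ((v.re + ε / 32 + ε / 128 - ε / 4) * Om T + K) * H := by linarith
    _ = (2 * Real.exp (2 * K)) * Real.exp ((v.re + ε / 32 + ε / 128 - ε / 4) * Om T - K) * H := by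
        have : Real.exp ((v.re + ε / 32 + ε / 128 - ε / 4) * Om T + K) =
            Real.exp (2 * K) * Real.exp ((v.re + ε / 32 + ε / 128 - ε / 4) * Om T - K) := by
          rw [← Real.exp_add]; congr 1; ring
        rw [this]; ring
    _ ≤ Real.exp (ε / 16 * Om T) *
          Real.exp ((v.re + ε / 32 + ε / 128 - ε / 4) * Om T - K) * H := by gcongr
    _ ≤ Real.exp (-(ε / 16 * Om T)) * (Real.exp ((v.re - ε / 64 - ε / 128) * Om T - K) * H) := by
        rw [← mul_assoc, ← Real.exp_add, ← Real.exp_add]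
        have : ε / 16 * Om T + ((v.re + ε / 32 + ε / 128 - ε / 4) * Om T - K) ≤
            -(ε / 16 * Om T) + ((v.re - ε / 64 - ε / 128) * Om T - K) := by nlinarith
        gcongr
    _ ≤ _ := by gcongr

theorem P2 (ε : ℝ) (hε : 0 < ε) (hε1 : ε ≤ 1) (η1 : ℝ) (hη1 : 0 < η1) : ∃ T0 : ℝ, 2000 ≤ T0 ∧
    ∀ (T : ℝ) (D : ℕ) (xp : ℝ), T0 ≤ T → T ^ (2 + ε) ≤ D → (D : ℝ) ≤ T ^ (6 : ℝ) → |xp| ≤ 1 →
    ∀ u : ℂ, 3 / 4 ≤ u.re → u.re ≤ 11 → |u.im| ≤ 11 → pp D T xp u ≠ 0 ∧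
      ‖logDeriv (pp D T xp) u - (Om T : ℂ)‖ ≤ η1 * Om T ∧
      Real.exp ((u.re - η1) * Om T) * ‖HH (I * T)‖ ≤ ‖pp D T xp u‖ ∧
      ‖pp D T xp u‖ ≤ Real.exp ((u.re + η1) * Om T) * ‖HH (I * T)‖ := by
  obtain ⟨ε', hε'0, hε'1, hε'2⟩ : ∃ ε' : ℝ, 0 < ε' ∧ ε' ≤ 1 / 16 ∧ ε' ≤ η1 / 32 :=
    ⟨min (1 / 16) (η1 / 32), lt_min (by norm_num) (by positivity), min_le_left _ _, min_le_right _ _⟩
  obtain ⟨K, T1, hK, hT1, hx⟩ := xi_right ε' hε'0 hε'1
  obtain ⟨T2, hT2, hr⟩ := rel ε hε hε1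
  obtain ⟨T3, hT3⟩ := eventually_atTop.1 (ev_exp 2 (ε / 16) (by positivity))
  obtain ⟨T4, hT4⟩ := eventually_atTop.1 (Om_tendsto.eventually_ge_atTop ((4 * K + 400) / η1 + 1))
  refine ⟨max (max T1 T2) (max (max T3 T4) (max (8000 / η1) 8000)),
    hT2.trans ((le_max_right _ _).trans (le_max_left _ _)), ?_⟩
  intro T D xp hT hD1 hD2 hxp u hu1 hu2 hu3
  have hTT1 : T1 ≤ T := ((le_max_left _ _).trans (le_max_left _ _)).trans hT
  have hTT2 : T2 ≤ T := ((le_max_right _ _).trans (le_max_left _ _)).trans hT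
  have hTT3 : T3 ≤ T :=
    (((le_max_left _ _).trans (le_max_left _ _)).trans (le_max_right _ _)).trans hT
  have hTT4 : T4 ≤ T :=
    (((le_max_right _ _).trans (le_max_left _ _)).trans (le_max_right _ _)).trans hT
  have hTT5 : 8000 / η1 ≤ T :=
    (((le_max_left _ _).trans (le_max_right _ _)).trans (le_max_right _ _)).trans hT
  have hT8000 : 8000 ≤ T :=
    (((le_max_right _ _).trans (le_max_right _ _)).trans (le_max_right _ _)).trans hT
  have hT2000 : 2000 ≤ T := hT2.trans hTT2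
  have hT0 : 0 < T := by linarith
  have hOm' := hT4 T hTT4
  have hOm1 : 1 ≤ Om T := by
    have : 0 ≤ (4 * K + 400) / η1 := by positivity
    linarith
  have hOmη : 4 * K + 400 ≤ η1 * Om T := by
    have h1 : (4 * K + 400) / η1 ≤ Om T := by linarith
    rw [div_le_iff₀ hη1] at h1
    linarith
  have hη1T : 1000 / T ≤ η1 / 8 := by
    rw [div_le_iff₀ hη1] at hTT5
    rw [div_le_iff₀ hT0]
    linarith
  have h1000 : 1000 / T ≤ 1 / 8 := by rw [div_le_iff₀ hT0]; linarith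
  have hOmT : Om T ≤ T / 2 := by
    unfold Pool.Agent.H24R2.JP.Om
    have := Real.log_le_sub_one_of_pos hT0
    linarith
  set L := Om T with hL
  set H := ‖HH (I * T)‖ with hH
  have hH0 : 0 ≤ H := norm_nonneg _
  set τ : ℝ := Real.exp (-(ε / 16 * L)) with hτ
  have hτ0 : 0 ≤ τ := (Real.exp_pos _).le
  have hτ2 : τ ≤ 1 / 2 := by
    have h2 := hT3 T hTT3
    rw [hτ, Real.exp_neg]
    have h3 : (Real.exp (ε / 16 * L))⁻¹ ≤ (2 : ℝ)⁻¹ := inv_anti₀ (by norm_num) h2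
    linarith
  have hu3' := abs_le.1 hu3
  have hclose : ∀ v : ℂ, ‖v - u‖ ≤ 1 / 8 → qq T xp v ≠ 0 ∧
      ‖pp D T xp v - qq T xp v‖ ≤ τ * ‖qq T xp v‖ := by
    intro v hv
    have h1 := abs_le.1 ((abs_re_le_norm (v - u)).trans hv)
    have h2 := abs_le.1 ((abs_im_le_norm (v - u)).trans hv)
    rw [sub_re] at h1
    rw [sub_im] at h2
    exact hr T D xp hTT2 hD1 hD2 hxp v (by linarith) (by linarith)
      (by rw [abs_le]; constructor <;> linarith)
  obtain ⟨q1, q2, q3, q4⟩ := quot_log (pp_diff D T xp) (qq_diff T xp) (by norm_num : (0 : ℝ) < 1 / 8)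
    hτ0 hτ2 hclose
  -- the value of qq
  have hun : ‖u‖ ≤ 17 := norm_box (by rw [abs_le]; constructor <;> linarith) (by linarith)
  obtain ⟨z, hz1, hz2⟩ := pt T xp u hT2000 hxp (by linarith)
  have hq : qq T xp u = XX z := by
    unfold qq
    rw [← hz1, Pool.Agent.H24R2.JP.b1.2.1]
  have ez : I * (T : ℂ) + (z - I * T) = z := by ring
  have hvz : ‖(z - I * T) - u‖ ≤ 1000 / T := by
    have : (z - I * (T : ℂ)) - u = z - (I * T + u) := by ring
    rw [this]; exact hz2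
  have hzre := abs_le.1 ((abs_re_le_norm ((z - I * T) - u)).trans hvz)
  rw [sub_re] at hzre
  have hzn : ‖z - I * T‖ ≤ 18 := by
    calc ‖z - I * T‖ = ‖((z - I * T) - u) + u‖ := by congr 1; ring
      _ ≤ ‖(z - I * T) - u‖ + ‖u‖ := norm_add_le _ _
      _ ≤ 18 := by linarith
  obtain ⟨c1, c2, c3, c4⟩ := hx T (z - I * T) hTT1 (by linarith) (by linarith)
  rw [ez] at c1 c2 c3 c4
  rw [← hL] at c2 c3 c4
  have hzT : T / 2 ≤ ‖z‖ := by
    have h1 := norm_sub_norm_le (I * (T : ℂ)) (-(z - I * T))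
    rw [norm_neg, sub_neg_eq_add, ez, norm_mul, norm_I, one_mul, norm_real,
      Real.norm_of_nonneg hT0.le] at h1
    linarith
  have hz0 : z ≠ 0 := by
    intro h
    rw [h, norm_zero] at hzT
    linarith
  have hzp : 0 < ‖z‖ := norm_pos_iff.2 hz0
  have hr1 : ‖I * T / z - 1‖ ≤ 36 / T := by
    have e1 : I * (T : ℂ) / z - 1 = -((z - I * T) / z) := by field_simp; ring
    rw [e1, norm_neg, norm_div]
    calc ‖z - I * T‖ / ‖z‖ ≤ 18 / (T / 2) := by gcongr
      _ = 36 / T := by field_simp; norm_num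
  have h36 : 36 / T ≤ 1 / 2 := by rw [div_le_iff₀ hT0]; linarith
  have hr2 : ‖I * T / z‖ ≤ 3 / 2 := by
    calc ‖I * T / z‖ = ‖(I * T / z - 1) + 1‖ := by congr 1; ring
      _ ≤ ‖I * T / z - 1‖ + ‖(1 : ℂ)‖ := norm_add_le _ _
      _ ≤ 3 / 2 := by rw [norm_one]; linarith
  have h36L : 36 / T * L ≤ 18 := by
    have : 36 / T * L ≤ 36 / T * (T / 2) := by gcongr
    have e : 36 / T * (T / 2) = 18 := by field_simp; norm_num
    linarith
  have hLD : ‖logDeriv (qq T xp) u - (L : ℂ)‖ ≤ 3 / 2 * (K + 4 * ε' * L) + 18 := by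
    rw [qq_logDeriv T xp u z hz1 hz0]
    have e1 : I * T / z * logDeriv XX z - (L : ℂ) =
        I * T / z * (logDeriv XX z - (L : ℂ)) + (I * T / z - 1) * (L : ℂ) := by ring
    rw [e1]
    refine (norm_add_le _ _).trans ?_
    rw [norm_mul, norm_mul, norm_real, Real.norm_of_nonneg (by linarith : (0 : ℝ) ≤ L)]
    have h1 : ‖I * T / z‖ * ‖logDeriv XX z - (L : ℂ)‖ ≤ 3 / 2 * (K + 4 * ε' * L) := by
      gcongr
    have h2 : ‖I * T / z - 1‖ * L ≤ 36 / T * L := by gcongr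
    linarith
  have hε'L : 4 * ε' * L ≤ η1 / 8 * L := by
    have : 4 * ε' ≤ η1 / 8 := by linarith
    gcongr
  have hHe : Real.exp (-1) ≤ 1 / 2 := by
    have := Real.exp_one_gt_d9
    rw [Real.exp_neg]
    have h3 : (Real.exp 1)⁻¹ ≤ (2 : ℝ)⁻¹ := inv_anti₀ (by norm_num) (by linarith)
    linarith
  have hHe2 : 2 ≤ Real.exp 1 := by
    have := Real.exp_one_gt_d9
    linarith
  refine ⟨q1, ?_, ?_, ?_⟩
  · have e1 : logDeriv (pp D T xp) u - (L : ℂ) =
        (logDeriv (pp D T xp) u - logDeriv (qq T xp) u) + (logDeriv (qq T xp) u - (L : ℂ)) := by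
      ring
    rw [e1]
    refine (norm_add_le _ _).trans ?_
    have e2 : 2 * τ / (1 / 8) = 16 * τ := by ring
    rw [e2] at q2
    linarith
  · refine le_trans ?_ q3
    rw [hq]
    have h1 : Real.exp ((u.re - η1) * L) ≤
        Real.exp (-1) * Real.exp (((z - I * T).re - 4 * ε') * L - K) := by
      rw [← Real.exp_add]
      apply Real.exp_le_exp.2
      have h2 : (u.re - η1 / 8) * L ≤ (z - I * T).re * L := by
        gcongr
        linarith
      nlinarith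
    calc Real.exp ((u.re - η1) * L) * H
        ≤ (Real.exp (-1) * Real.exp (((z - I * T).re - 4 * ε') * L - K)) * H := by gcongr
      _ ≤ (1 / 2 * Real.exp (((z - I * T).re - 4 * ε') * L - K)) * H := by gcongr
      _ = (Real.exp (((z - I * T).re - 4 * ε') * L - K) * H) / 2 := by ring
      _ ≤ ‖XX z‖ / 2 := by gcongr
  · refine q4.trans ?_
    rw [hq]
    have h1 : Real.exp 1 * Real.exp (((z - I * T).re + 4 * ε') * L + K) ≤
        Real.exp ((u.re + η1) * L) := by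
      rw [← Real.exp_add]
      apply Real.exp_le_exp.2
      have h2 : (z - I * T).re * L ≤ (u.re + η1 / 8) * L := by
        gcongr
        linarith
      nlinarith
    calc 2 * ‖XX z‖ ≤ 2 * (Real.exp (((z - I * T).re + 4 * ε') * L + K) * H) := by gcongr
      _ ≤ Real.exp 1 * (Real.exp (((z - I * T).re + 4 * ε') * L + K) * H) := by gcongr
      _ = (Real.exp 1 * Real.exp (((z - I * T).re + 4 * ε') * L + K)) * H := by ring
      _ ≤ _ := by gcongr

end Pool.Agent.U4.JC
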