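import Mathlib

set_option autoImplicit false

/-!
# Elementary inequalities (Stirling)
-/

namespace Pool.Agent.U4.JC

theorem le_fact (n : ℕ) : (n : ℝ) ^ n ≤ n.factorial * Real.exp n := by
  have h := Real.pow_div_factorial_le_exp (n : ℝ) (Nat.cast_nonneg n) n
  have h1 : (0 : ℝ) < n.factorial := by exact_mod_cast Nat.factorial_pos n
  rw [div_le_iff₀ h1] at h
  linarith

/-- Stirling upper bound with the square root. -/
theorem fact_le_sqrt (n : ℕ) (hn : 1 ≤ n) :
    (n.factorial : ℝ) * Real.exp n ≤ Real.exp 1 * Real.sqrt n * (n : ℝ) ^ n := by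
  obtain ⟨k, rfl⟩ : ∃ k, n = k + 1 := ⟨n - 1, by omega⟩
  have h := Stirling.stirlingSeq'_antitone (Nat.zero_le k)
  simp only [Function.comp, Nat.succ_eq_add_one, zero_add, Stirling.stirlingSeq_one] at h
  unfold Stirling.stirlingSeq at h
  set x : ℝ := ((k + 1 : ℕ) : ℝ) with hx
  have hx1 : (1 : ℝ) ≤ x := by rw [hx]; exact_mod_cast hn
  have hx0 : 0 < x := by linarith
  have hs2 : 0 < Real.sqrt 2 := by positivity
  have hsx : 0 < Real.sqrt x := Real.sqrt_pos.2 hx0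
  have e1 : Real.sqrt (2 * x) = Real.sqrt 2 * Real.sqrt x := Real.sqrt_mul (by norm_num) x
  rw [e1, div_le_div_iff₀ (by positivity) hs2] at h
  have h2 : ((k + 1).factorial : ℝ) ≤ Real.exp 1 * (Real.sqrt x * (x / Real.exp 1) ^ (k + 1)) := by
    have : ((k + 1).factorial : ℝ) * Real.sqrt 2 ≤
        (Real.exp 1 * (Real.sqrt x * (x / Real.exp 1) ^ (k + 1))) * Real.sqrt 2 := by
      calc ((k + 1).factorial : ℝ) * Real.sqrt 2
          ≤ Real.exp 1 * (Real.sqrt 2 * Real.sqrt x * (x / Real.exp 1) ^ (k + 1)) := h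
        _ = _ := by ring
    exact le_of_mul_le_mul_right this hs2
  have h4 : (x / Real.exp 1) ^ (k + 1) * Real.exp x = x ^ (k + 1) := by
    have : Real.exp x = Real.exp 1 ^ (k + 1) := by
      rw [← Real.exp_nat_mul, mul_one]
    rw [this, ← mul_pow, div_mul_cancel₀ _ (Real.exp_pos 1).ne']
  calc ((k + 1).factorial : ℝ) * Real.exp x
      ≤ (Real.exp 1 * (Real.sqrt x * (x / Real.exp 1) ^ (k + 1))) * Real.exp x :=
        mul_le_mul_of_nonneg_right h2 (Real.exp_pos _).le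
    _ = Real.exp 1 * Real.sqrt x * ((x / Real.exp 1) ^ (k + 1) * Real.exp x) := by ring
    _ = Real.exp 1 * Real.sqrt x * x ^ (k + 1) := by rw [h4]

theorem fact_le (n : ℕ) (hn : 1 ≤ n) :
    (n.factorial : ℝ) * Real.exp n ≤ Real.exp 1 * n * (n : ℝ) ^ n := by
  refine (fact_le_sqrt n hn).trans ?_
  have hx1 : (1 : ℝ) ≤ n := by exact_mod_cast hn
  have h3 : Real.sqrt n ≤ n := by
    rw [Real.sqrt_le_left (by linarith)]
    nlinarith
  gcongr

lemma growE (A B : ℝ) (hA : 0 < A) : ∃ L0 : ℝ, 1 ≤ L0 ∧ ∀ L : ℝ, L0 ≤ L →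
    B * L < Real.exp (A * L) := by
  refine ⟨max 1 (2 * B / A ^ 2), le_max_left _ _, fun L hL => ?_⟩
  have h1 : 1 ≤ L := le_trans (le_max_left _ _) hL
  have h2 : 2 * B / A ^ 2 ≤ L := le_trans (le_max_right _ _) hL
  have hAL : 0 ≤ A * L := by positivity
  have h3 := Real.quadratic_le_exp_of_nonneg hAL
  rw [div_le_iff₀ (by positivity)] at h2
  have h4 : B * L ≤ (A * L) ^ 2 / 2 := by nlinarith
  linarith

end Pool.Agent.U4.JC
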