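import Pool.Agent.H986R2.K4.HHb
import Pool.Agent.H986R2.K4.A1
import Pool.Agent.H24R2.DZ.XB

set_option autoImplicit false

/-!
# Growth of `XX` around `i T`, in a disc of radius `T / 4`
-/

namespace Pool.Agent.U4.JC

open Complex Filter Topology MeasureTheory Set
open Pool.Agent.H24R2.JP (XX HH Om)

/-- vertical comparison -/
theorem vert : ∃ K T0 : ℝ, 1 ≤ K ∧ 2 ≤ T0 ∧ ∀ (k : ℕ) (t t' : ℝ), T0 ≤ t → T0 ≤ t' → |t - t'| ≤ k →
    ‖HH (I * t')‖ ≤ Real.exp (K * k) * ‖HH (I * t)‖ := by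
  obtain ⟨K, hK, h⟩ := Pool.Agent.H986R2.K4.hh
  obtain ⟨T0, hT0, h⟩ := h 1 le_rfl
  refine ⟨K, T0, hK, hT0, ?_⟩
  intro k
  induction k with
  | zero =>
    intro t t' _ _ h1
    have : t = t' := by
      have h2 : |t - t'| = 0 := le_antisymm (by simpa using h1) (abs_nonneg _)
      have := abs_eq_zero.1 h2
      linarith
    subst this
    simp
  | succ k ih =>
    intro t t' ht ht' h1
    -- intermediate point
    obtain ⟨m, hm1, hm2, hm3⟩ : ∃ m : ℝ, T0 ≤ m ∧ |t - m| ≤ 1 ∧ |m - t'| ≤ k := by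
      rcases le_total t t' with h2 | h2
      · refine ⟨min (t + 1) t', le_min (by linarith) ht', ?_, ?_⟩
        · have h3 : t ≤ min (t + 1) t' := le_min (by linarith) h2
          rw [abs_sub_comm, abs_of_nonneg (by linarith)]
          have := min_le_left (t + 1) t'
          linarith
        · have h3 : min (t + 1) t' ≤ t' := min_le_right _ _
          rw [abs_sub_comm, abs_of_nonneg (by linarith)]
          rw [abs_sub_comm, abs_of_nonneg (by linarith)] at h1
          push_cast at h1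
          rcases min_choice (t + 1) t' with h4 | h4
          · rw [h4]; linarith
          · rw [h4]; simp
      · refine ⟨max (t - 1) t', le_trans ht' (le_max_right _ _), ?_, ?_⟩
        · have h3 : max (t - 1) t' ≤ t := max_le (by linarith) h2
          rw [abs_of_nonneg (by linarith)]
          have := le_max_left (t - 1) t'
          linarith
        · have h3 : t' ≤ max (t - 1) t' := le_max_right _ _
          rw [abs_of_nonneg (by linarith)]
          rw [abs_of_nonneg (by linarith)] at h1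
          push_cast at h1
          rcases max_choice (t - 1) t' with h4 | h4
          · rw [h4]; linarith
          · rw [h4]; simp
    have h5 := ih m t' hm1 ht' hm3
    obtain ⟨-, -, -, -, h6⟩ := h t (I * ((m - t : ℝ) : ℂ)) ht (by
      rw [norm_mul, norm_I, one_mul, norm_real, Real.norm_eq_abs, abs_sub_comm]
      exact hm2)
    have e1 : I * (t : ℂ) + I * ((m - t : ℝ) : ℂ) = I * (m : ℂ) := by push_cast; ring
    have e2 : (I * ((m - t : ℝ) : ℂ)).re = 0 := by simp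
    rw [e1, e2, mul_zero, zero_add, mul_one] at h6
    calc ‖HH (I * t')‖ ≤ Real.exp (K * k) * ‖HH (I * m)‖ := h5
      _ ≤ Real.exp (K * k) * (Real.exp K * ‖HH (I * t)‖) := by gcongr
      _ = Real.exp (K * ((k + 1 : ℕ) : ℝ)) * ‖HH (I * t)‖ := by
          rw [← mul_assoc, ← Real.exp_add]
          congr 2
          push_cast
          ring

theorem vert' : ∃ K T0 : ℝ, 1 ≤ K ∧ 2 ≤ T0 ∧ ∀ t t' : ℝ, T0 ≤ t → T0 ≤ t' →
    ‖HH (I * t')‖ ≤ Real.exp (K * (1 + |t - t'|)) * ‖HH (I * t)‖ := by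
  obtain ⟨K, T0, hK, hT0, h⟩ := vert
  refine ⟨K, T0, hK, hT0, fun t t' ht ht' => ?_⟩
  refine (h ⌈|t - t'|⌉₊ t t' ht ht' (Nat.le_ceil _)).trans ?_
  have h1 : (⌈|t - t'|⌉₊ : ℝ) ≤ 1 + |t - t'| := by
    have := (Nat.ceil_lt_add_one (abs_nonneg (t - t'))).le
    linarith
  gcongr

/-- lower bound for `HH` on the line -/
theorem HH_low : ∃ K T0 : ℝ, 1 ≤ K ∧ 2 ≤ T0 ∧ ∀ t : ℝ, T0 ≤ t → Real.exp (-(K * t)) ≤ ‖HH (I * t)‖ := by
  obtain ⟨K, T0, hK, hT0, h⟩ := vert'
  obtain ⟨K1, hK1, hh⟩ := Pool.Agent.H986R2.K4.hh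
  obtain ⟨T1, hT1, hh⟩ := hh 1 le_rfl
  set a : ℝ := max T0 T1 with ha
  have ha0 : T0 ≤ a := le_max_left _ _
  have ha1 : T1 ≤ a := le_max_right _ _
  obtain ⟨-, h2, -⟩ := hh a 0 ha1 (by simp)
  rw [add_zero] at h2
  have h3 : 0 < ‖HH (I * a)‖ := norm_pos_iff.2 h2
  obtain ⟨c, hc⟩ : ∃ c : ℝ, c = -Real.log ‖HH (I * a)‖ := ⟨_, rfl⟩
  have h4 : ‖HH (I * a)‖ = Real.exp (-c) := by rw [hc, neg_neg, Real.exp_log h3]
  refine ⟨2 * K + |c| + 1, a, by have := abs_nonneg c; linarith, by linarith, ?_⟩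
  intro t ht
  have h5 := h t a (by linarith) ha0
  rw [h4, abs_of_nonneg (by linarith)] at h5
  have h6 : Real.exp (-c) * Real.exp (-(K * (1 + (t - a)))) ≤ ‖HH (I * t)‖ := by
    calc Real.exp (-c) * Real.exp (-(K * (1 + (t - a))))
        ≤ (Real.exp (K * (1 + (t - a))) * ‖HH (I * t)‖) * Real.exp (-(K * (1 + (t - a)))) := by gcongr
      _ = (Real.exp (K * (1 + (t - a))) * Real.exp (-(K * (1 + (t - a))))) * ‖HH (I * t)‖ := by ring
      _ = _ := by rw [← Real.exp_add, add_neg_cancel, Real.exp_zero, one_mul]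
  refine le_trans ?_ h6
  rw [← Real.exp_add]
  apply Real.exp_le_exp.2
  have h7 := le_abs_self c
  have h8 := abs_nonneg c
  have h9 : |c| ≤ |c| * t := by nlinarith
  nlinarith

/-- the functional equation of the Gamma factor -/
theorem HH_add_two (w : ℂ) (h1 : 0 ≤ w.re) (h2 : 3 ≤ w.im) : ‖HH (w + 2)‖ ≤ (‖w‖ + 1) * ‖HH w‖ := by
  unfold Pool.Agent.H24R2.JP.HH
  have hs : (1 / 2 + w : ℂ) ≠ 0 := by
    intro h
    have := congrArg Complex.re h
    simp at this
    linarith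
  have e1 : (1 / 2 + (w + 2) : ℂ) = (1 / 2 + w) + 2 := by ring
  rw [e1, Gammaℝ_add_two hs, norm_mul, norm_mul, norm_div, norm_div, norm_mul]
  have e2 : (4 * (w + 2) ^ 2 - 1 : ℂ) = (2 * w + 3) * (2 * w + 5) := by ring
  have e3 : (4 * w ^ 2 - 1 : ℂ) = (2 * w + 1) * (2 * w - 1) := by ring
  rw [e2, e3, norm_mul, norm_mul]
  have n1 : 6 ≤ ‖2 * w + 1‖ := by
    have := abs_im_le_norm (2 * w + 1)
    have h3 : (2 * w + 1 : ℂ).im = 2 * w.im := by simp
    rw [h3, abs_of_nonneg (by linarith)] at this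
    linarith
  have n2 : 6 ≤ ‖2 * w - 1‖ := by
    have := abs_im_le_norm (2 * w - 1)
    have h3 : (2 * w - 1 : ℂ).im = 2 * w.im := by simp
    rw [h3, abs_of_nonneg (by linarith)] at this
    linarith
  have n3 : ‖2 * w + 3‖ ≤ 4 / 3 * ‖2 * w + 1‖ := by
    have e : (2 * w + 3 : ℂ) = (2 * w + 1) + 2 := by ring
    have := norm_add_le (2 * w + 1) (2 : ℂ)
    rw [← e] at this
    have h4 : ‖(2 : ℂ)‖ = 2 := by simp
    rw [h4] at this
    linarith
  have n4 : ‖2 * w + 5‖ ≤ 2 * ‖2 * w - 1‖ := by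
    have e : (2 * w + 5 : ℂ) = (2 * w - 1) + 6 := by ring
    have := norm_add_le (2 * w - 1) (6 : ℂ)
    rw [← e] at this
    have h4 : ‖(6 : ℂ)‖ = 6 := by simp
    rw [h4] at this
    linarith
  have n5 : ‖(1 / 2 + w : ℂ)‖ ≤ ‖w‖ + 1 := by
    have := norm_add_le (1 / 2 : ℂ) w
    have h4 : ‖(1 / 2 : ℂ)‖ = 1 / 2 := by simp
    rw [h4] at this
    linarith
  have h2' : ‖(2 : ℂ)‖ = 2 := by simp
  have hpi : ‖(Real.pi : ℂ)‖ = Real.pi := by
    rw [norm_real, Real.norm_of_nonneg Real.pi_pos.le]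
  rw [h2', hpi]
  have hpi3 := Real.pi_gt_three
  have hG : 0 ≤ ‖Gammaℝ (1 / 2 + w)‖ := norm_nonneg _
  have key : ‖(1 / 2 + w : ℂ)‖ / 2 / Real.pi ≤ (‖w‖ + 1) / 6 := by
    rw [div_div, div_le_div_iff₀ (by positivity) (by norm_num)]
    nlinarith [norm_nonneg w]
  calc ‖2 * w + 3‖ * ‖2 * w + 5‖ * (‖Gammaℝ (1 / 2 + w)‖ * ‖(1 / 2 + w : ℂ)‖ / 2 / Real.pi)
      = ‖2 * w + 3‖ * ‖2 * w + 5‖ * (‖Gammaℝ (1 / 2 + w)‖ * (‖(1 / 2 + w : ℂ)‖ / 2 / Real.pi)) := by
        ring
    _ ≤ (4 / 3 * ‖2 * w + 1‖) * (2 * ‖2 * w - 1‖) * (‖Gammaℝ (1 / 2 + w)‖ * ((‖w‖ + 1) / 6)) := by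
        gcongr
    _ = (8 / 18) * ((‖w‖ + 1) * (‖2 * w + 1‖ * ‖2 * w - 1‖ * ‖Gammaℝ (1 / 2 + w)‖)) := by ring
    _ ≤ 1 * ((‖w‖ + 1) * (‖2 * w + 1‖ * ‖2 * w - 1‖ * ‖Gammaℝ (1 / 2 + w)‖)) := by
        gcongr
        norm_num
    _ = _ := by ring

theorem HH_add_even (A : ℝ) (hA : 1 ≤ A) (k : ℕ) (w : ℂ) (h1 : 0 ≤ w.re) (h2 : 3 ≤ w.im)
    (h3 : ‖w‖ + 2 * k ≤ A) : ‖HH (w + 2 * k)‖ ≤ (A + 1) ^ k * ‖HH w‖ := by
  induction k with
  | zero => simp
  | succ k ih =>
    push_cast at h3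
    have h4 := ih (by linarith)
    have h5 := HH_add_two (w + 2 * k) (by simp; positivity) (by simpa using h2)
    have e1 : w + 2 * ((k + 1 : ℕ) : ℂ) = (w + 2 * k) + 2 := by push_cast; ring
    rw [e1]
    have h6 : ‖w + 2 * (k : ℂ)‖ ≤ A := by
      refine (norm_add_le _ _).trans ?_
      have : ‖(2 * (k : ℂ))‖ = 2 * k := by simp
      rw [this]
      linarith
    calc ‖HH (w + 2 * k + 2)‖ ≤ (‖w + 2 * (k : ℂ)‖ + 1) * ‖HH (w + 2 * k)‖ := h5
      _ ≤ (A + 1) * ((A + 1) ^ k * ‖HH w‖) := by gcongr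
      _ = _ := by ring

/-- Growth in the disc, right half. -/
theorem gro_right : ∃ C T0 : ℝ, 1 ≤ C ∧ 2 ≤ T0 ∧ ∀ (T : ℝ) (w : ℂ), T0 ≤ T → 0 ≤ w.re →
    ‖w - I * T‖ ≤ T / 4 →
    ‖XX w‖ ≤ Real.exp (C * (1 + ‖w - I * T‖) * Real.log T) * ‖HH (I * T)‖ := by
  obtain ⟨K1, T1, hK1, hT1, hv⟩ := vert'
  obtain ⟨K2, T2, hK2, hxb⟩ := Pool.Agent.H24R2.DZ.xb 3
  obtain ⟨K3, hK3, hh⟩ := Pool.Agent.H986R2.K4.hh
  obtain ⟨T3, hT3, hh⟩ := hh 2 (by norm_num)
  obtain ⟨t4, ht4, hz⟩ := Pool.Agent.H986R2.K4.a1 (1 / 2) (by norm_num)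
  refine ⟨2 * |K2| + K1 + 2 * K3 + 20, max (4 * (T1 + |T2| + T3 + t4)) 400, ?_, ?_, ?_⟩
  · have := abs_nonneg K2
    linarith
  · exact le_trans (by norm_num) (le_max_right _ _)
  intro T w hT hw hwT
  have hTa : 4 * (T1 + |T2| + T3 + t4) ≤ T := le_trans (le_max_left _ _) hT
  have hTb : 400 ≤ T := le_trans (le_max_right _ _) hT
  have hT0 : 0 < T := by linarith
  have hT2 := abs_nonneg T2
  have hT2' := le_abs_self T2
  set T' : ℝ := w.im with hT'
  have him : |T' - T| ≤ ‖w - I * T‖ := by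
    have := abs_im_le_norm (w - I * T)
    simpa using this
  have hre : |w.re| ≤ ‖w - I * T‖ := by
    have := abs_re_le_norm (w - I * T)
    simpa using this
  rw [abs_of_nonneg hw] at hre
  set δ : ℝ := ‖w - I * T‖ with hδ
  have hδ0 : 0 ≤ δ := norm_nonneg _
  have him' := abs_le.1 (him.trans hwT)
  have hT'1 : 3 / 4 * T ≤ T' := by linarith
  have hT'2 : T' ≤ 5 / 4 * T := by linarith
  have hlogT : 1 ≤ Real.log T := by
    rw [Real.le_log_iff_exp_le hT0]
    have := Real.exp_one_lt_d9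
    linarith
  have hlogT' : Real.log T' ≤ 2 * Real.log T := by
    have h1 : Real.log T' ≤ Real.log (T ^ 2) := Real.log_le_log (by linarith) (by nlinarith)
    rw [Real.log_pow] at h1
    simpa using h1
  have hlogT'0 : 0 ≤ Real.log T' := Real.log_nonneg (by linarith)
  have hvt : ‖HH (I * T')‖ ≤ Real.exp (K1 * (1 + δ)) * ‖HH (I * T)‖ := by
    refine (hv T T' (by linarith) (by linarith)).trans ?_
    have : |T - T'| ≤ δ := by rw [abs_sub_comm]; exact him
    gcongr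
  have hHp : 0 ≤ ‖HH (I * T)‖ := norm_nonneg _
  rcases le_or_gt w.re 2 with h2 | h2
  · -- near the line
    have h3 := (hxb T' ((w.re : ℝ) : ℂ) (by linarith) (by
      rw [norm_real, Real.norm_of_nonneg hw]; linarith)).1
    have e1 : I * (T' : ℂ) + ((w.re : ℝ) : ℂ) = w := by
      apply Complex.ext <;> simp [hT']
    rw [e1] at h3
    calc ‖XX w‖ ≤ Real.exp (K2 * Real.log T') * ‖HH (I * T')‖ := h3
      _ ≤ Real.exp (|K2| * (2 * Real.log T)) * (Real.exp (K1 * (1 + δ)) * ‖HH (I * T)‖) := by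
          have : K2 * Real.log T' ≤ |K2| * (2 * Real.log T) := by
            calc K2 * Real.log T' ≤ |K2| * Real.log T' := by gcongr; exact le_abs_self _
              _ ≤ _ := by gcongr
          gcongr
      _ = Real.exp (|K2| * (2 * Real.log T) + K1 * (1 + δ)) * ‖HH (I * T)‖ := by
          rw [← mul_assoc, ← Real.exp_add]
      _ ≤ _ := by
          gcongr
          have h5 : K1 * (1 + δ) ≤ K1 * (1 + δ) * Real.log T := by
            have : 0 ≤ K1 * (1 + δ) := by positivity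
            nlinarith
          have h6 : |K2| * (2 * Real.log T) ≤ 2 * |K2| * (1 + δ) * Real.log T := by
            have : 0 ≤ |K2| * Real.log T * δ := by positivity
            nlinarith
          have h7 : 0 ≤ (2 * K3 + 20) * (1 + δ) * Real.log T := by positivity
          nlinarith
  · -- far to the right
    set k : ℕ := ⌊w.re / 2⌋₊ with hk
    have hk1 : (k : ℝ) ≤ w.re / 2 := Nat.floor_le (by linarith)
    have hk2 : w.re / 2 < k + 1 := Nat.lt_floor_add_one _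
    set w0 : ℂ := w - 2 * k with hw0
    have hw0re : w0.re = w.re - 2 * k := by rw [hw0]; simp
    have hw0im : w0.im = T' := by rw [hw0]; simp [hT']
    have hr0 : 0 ≤ w0.re := by rw [hw0re]; linarith
    have hr2 : w0.re ≤ 2 := by rw [hw0re]; linarith
    have hw0n : ‖w0‖ ≤ T' + 2 := by
      refine (norm_le_abs_re_add_abs_im w0).trans ?_
      rw [hw0im, abs_of_nonneg hr0, abs_of_nonneg (by linarith)]
      linarith
    have h3 := HH_add_even (2 * T) (by linarith) k w0 hr0 (by rw [hw0im]; linarith) (by linarith)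
    have e0 : w0 + 2 * k = w := by rw [hw0]; ring
    rw [e0] at h3
    obtain ⟨-, -, -, -, h4⟩ := hh T' ((w0.re : ℝ) : ℂ) (by linarith) (by
      rw [norm_real, Real.norm_of_nonneg hr0]; exact hr2)
    have e1 : I * (T' : ℂ) + ((w0.re : ℝ) : ℂ) = w0 := by
      apply Complex.ext
      · simp
      · simp [hw0im]
    rw [e1, ofReal_re] at h4
    obtain ⟨-, -, -, h5⟩ := hz (1 / 2 + w) (by
      have : (1 / 2 + w : ℂ).re = 1 / 2 + w.re := by simp
      rw [this]; linarith) (by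
      have : (1 / 2 + w : ℂ).im = T' := by simp [hT']
      rw [this]; linarith)
    have e2 : (1 / 2 + w : ℂ).im = T' := by simp [hT']
    rw [e2] at h5
    have h6 : XX w = HH w * riemannZeta (1 / 2 + w) :=
      Pool.Agent.H24R2.JP.zetaS.1 w (by linarith)
    rw [h6, norm_mul]
    have h7 : T' ^ (1 / 2 : ℝ) ≤ Real.exp (Real.log T) := by
      rw [Real.rpow_def_of_pos (by linarith)]
      apply Real.exp_le_exp.2
      linarith
    have h8 : (2 * T + 1) ^ k ≤ Real.exp (2 * Real.log T * (1 + δ)) := by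
      have h9 : 2 * T + 1 ≤ Real.exp (2 * Real.log T) := by
        have : Real.exp (2 * Real.log T) = T ^ 2 := by
          rw [two_mul, Real.exp_add, Real.exp_log hT0]; ring
        rw [this]
        nlinarith
      calc (2 * T + 1) ^ k ≤ Real.exp (2 * Real.log T) ^ k := by gcongr
        _ = Real.exp (2 * Real.log T * k) := by
            rw [← Real.exp_nat_mul]; congr 1; ring
        _ ≤ _ := by
            apply Real.exp_le_exp.2
            have : (k : ℝ) ≤ 1 + δ := by linarith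
            gcongr
    have h10 : ‖HH w0‖ ≤ Real.exp (2 * Real.log T + 2 * K3) *
        (Real.exp (K1 * (1 + δ)) * ‖HH (I * T)‖) := by
      refine h4.trans ?_
      have : Om T' * w0.re + K3 * 2 ≤ 2 * Real.log T + 2 * K3 := by
        have h11 : Om T' ≤ Real.log T := by
          unfold Pool.Agent.H24R2.JP.Om
          linarith
        have h12 : 0 ≤ Om T' := by
          unfold Pool.Agent.H24R2.JP.Om
          linarith
        nlinarith
      gcongr
    calc ‖HH w‖ * ‖riemannZeta (1 / 2 + w)‖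
        ≤ ((2 * T + 1) ^ k * ‖HH w0‖) * Real.exp (Real.log T) := by
          gcongr
          exact h5.trans h7
      _ ≤ (Real.exp (2 * Real.log T * (1 + δ)) * (Real.exp (2 * Real.log T + 2 * K3) *
        (Real.exp (K1 * (1 + δ)) * ‖HH (I * T)‖))) * Real.exp (Real.log T) := by gcongr
      _ = Real.exp (2 * Real.log T * (1 + δ) + (2 * Real.log T + 2 * K3) + K1 * (1 + δ) +
            Real.log T) * ‖HH (I * T)‖ := by
          simp only [Real.exp_add]
          ring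
      _ ≤ _ := by
          gcongr
          have h11 : 0 ≤ δ * Real.log T := by positivity
          have h12 : K1 * (1 + δ) ≤ K1 * (1 + δ) * Real.log T := by
            have : 0 ≤ K1 * (1 + δ) := by positivity
            nlinarith
          have h13 : 2 * K3 ≤ 2 * K3 * (1 + δ) * Real.log T := by
            have : 1 ≤ (1 + δ) * Real.log T := by nlinarith
            nlinarith
          have h14 : 0 ≤ |K2| * (1 + δ) * Real.log T := by positivity
          nlinarith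

/-- Growth in the disc. -/
theorem gro : ∃ C T0 : ℝ, 1 ≤ C ∧ 2 ≤ T0 ∧ ∀ (T : ℝ) (w : ℂ), T0 ≤ T →
    ‖w - I * T‖ ≤ T / 4 →
    ‖XX w‖ ≤ Real.exp (C * (1 + ‖w - I * T‖) * Real.log T) * ‖HH (I * T)‖ := by
  obtain ⟨C, T0, hC, hT0, h⟩ := gro_right
  refine ⟨C, T0, hC, hT0, fun T w hT hw => ?_⟩
  rcases le_total 0 w.re with h1 | h1
  · exact h T w hT h1 hw
  · have e1 : ‖-((starRingEnd ℂ) w) - I * T‖ = ‖w - I * T‖ := by
      have : -((starRingEnd ℂ) w) - I * T = -((starRingEnd ℂ) (w - I * T)) := by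
        rw [map_sub, map_mul, conj_I, conj_ofReal]
        ring
      rw [this, norm_neg]
      exact norm_conj _
    have h2 := h T (-((starRingEnd ℂ) w)) hT (by simpa using h1) (by rw [e1]; exact hw)
    rw [Pool.Agent.H24R2.JP.B1h.XX_neg, Pool.Agent.H24R2.JP.B1h.XX_conj, e1] at h2
    have e2 : ‖(starRingEnd ℂ) (XX w)‖ = ‖XX w‖ := norm_conj _
    rwa [e2] at h2

end Pool.Agent.U4.JC
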