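import Pool.Agent.U4.JC.Ker
import Pool.Agent.U4.JC.Gro
import Pool.Agent.H24R2.JP.Grow

set_option autoImplicit false

/-!
# Comparison of the Jensen polynomials with the xi function at height `T`, `D ≥ T ^ (2 + ε)`
-/

namespace Pool.Agent.U4.JC

open Complex Filter Topology MeasureTheory Set
open Pool.Agent.H24R2.JP (XX HH Om FF)

theorem FF_diff : Differentiable ℂ FF := Pool.Agent.H24R2.JP.b1.1

/-- close points -/
theorem close {z z' : ℂ} {ρ M : ℝ} (hρ : 0 < ρ) (hM : ∀ w : ℂ, ‖w - z‖ ≤ ρ → ‖XX w‖ ≤ M)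
    (hz : ‖z' - z‖ ≤ ρ / 2) : ‖XX z' - XX z‖ ≤ 2 / ρ * M * ‖z' - z‖ := by
  have hd := Pool.Agent.H24R2.JP.B1h.XX_diff
  have hderiv : ∀ w ∈ Metric.closedBall z (ρ / 2), ‖deriv XX w‖ ≤ 2 / ρ * M := by
    intro w hw
    have hw' : ‖w - z‖ ≤ ρ / 2 := by simpa [dist_eq_norm] using hw
    have := Complex.norm_deriv_le_of_forall_mem_sphere_norm_le (c := w) (R := ρ / 2) (C := M)
      (f := XX) (by positivity) hd.diffContOnCl (by
        intro v hv
        have hv' : ‖v - w‖ = ρ / 2 := by simpa [dist_eq_norm] using hv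
        refine hM v ?_
        calc ‖v - z‖ = ‖(v - w) + (w - z)‖ := by congr 1; ring
          _ ≤ ‖v - w‖ + ‖w - z‖ := norm_add_le _ _
          _ ≤ ρ := by linarith)
    calc ‖deriv XX w‖ ≤ M / (ρ / 2) := this
      _ = 2 / ρ * M := by field_simp
  have h1 := (convex_closedBall z (ρ / 2)).norm_image_sub_le_of_norm_deriv_le (𝕜 := ℂ) (f := XX)
    (C := 2 / ρ * M) (x := z) (y := z') (fun w _ => hd w) hderiv
    (Metric.mem_closedBall_self (by positivity)) (by simpa [dist_eq_norm] using hz)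
  exact h1

/-- the rotated point -/
theorem rot (z : ℂ) (φ : ℝ) : FF (z ^ 2 * cexp (φ * I)) = XX (z * cexp (I * ((φ / 2 : ℝ) : ℂ))) := by
  rw [← Pool.Agent.H24R2.JP.b1.2.1, mul_pow, ← Complex.exp_nat_mul]
  congr 3
  push_cast
  ring

theorem rot_dist (z : ℂ) (φ : ℝ) : ‖z * cexp (I * ((φ / 2 : ℝ) : ℂ)) - z‖ ≤ ‖z‖ * (|φ| / 2) := by
  have h1 : z * cexp (I * ((φ / 2 : ℝ) : ℂ)) - z = z * (cexp (I * ((φ / 2 : ℝ) : ℂ)) - 1) := by ring
  rw [h1, norm_mul]
  have h2 := Real.norm_exp_I_mul_ofReal_sub_one_le (x := φ / 2)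
  rw [Real.norm_eq_abs, abs_div, abs_of_pos (by norm_num : (0 : ℝ) < 2)] at h2
  gcongr

/-- the Gaussian integral -/
theorem gauss (D : ℕ) (hD : 1 ≤ D) : (∫ φ in (-Real.pi)..Real.pi, Real.exp 1 * Real.sqrt D / (2 * Real.pi) *
      Real.exp (-(2 / Real.pi ^ 2 * D * φ ^ 2))) ≤ 2 := by
  have hD0 : (0 : ℝ) < D := by exact_mod_cast hD
  have hpi := Real.pi_pos
  have hpi3 := Real.pi_gt_three
  have hpi4 := Real.pi_lt_d2
  have hb : 0 < 2 / Real.pi ^ 2 * (D : ℝ) := by positivity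
  rw [intervalIntegral.integral_const_mul]
  have e1 : (fun φ : ℝ => Real.exp (-(2 / Real.pi ^ 2 * D * φ ^ 2))) =
      fun φ : ℝ => Real.exp (-(2 / Real.pi ^ 2 * D) * φ ^ 2) := by
    funext φ; congr 1; ring
  have h1 : (∫ φ in (-Real.pi)..Real.pi, Real.exp (-(2 / Real.pi ^ 2 * D * φ ^ 2))) ≤
      Real.sqrt (Real.pi / (2 / Real.pi ^ 2 * D)) := by
    rw [e1, ← integral_gaussian, intervalIntegral.integral_of_le (by linarith)]
    exact setIntegral_le_integral (integrable_exp_neg_mul_sq hb)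
      (Eventually.of_forall fun x => (Real.exp_pos _).le)
  have h2 : Real.sqrt (Real.pi / (2 / Real.pi ^ 2 * D)) ≤ 4 / Real.sqrt D := by
    rw [Real.sqrt_le_left (by positivity), div_pow, Real.sq_sqrt hD0.le, div_le_div_iff₀
      (by positivity) hD0]
    have : Real.pi ^ 3 ≤ 32 := by
      calc Real.pi ^ 3 ≤ 3.15 ^ 3 := by gcongr
        _ ≤ 32 := by norm_num
    have h5 : (4 : ℝ) ^ 2 * (2 / Real.pi ^ 2 * D) = 32 * D / Real.pi ^ 2 := by ring
    rw [h5, le_div_iff₀ (by positivity)]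
    nlinarith
  calc Real.exp 1 * Real.sqrt D / (2 * Real.pi) *
        ∫ φ in (-Real.pi)..Real.pi, Real.exp (-(2 / Real.pi ^ 2 * D * φ ^ 2))
      ≤ Real.exp 1 * Real.sqrt D / (2 * Real.pi) * (4 / Real.sqrt D) := by
        gcongr
        exact h1.trans h2
    _ = 2 * Real.exp 1 / Real.pi := by
        have : Real.sqrt (D : ℝ) ≠ 0 := (Real.sqrt_pos.2 hD0).ne'
        field_simp
        ring
    _ ≤ 2 := by
        rw [div_le_iff₀ hpi]
        have := Real.exp_one_lt_d9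
        linarith

/-- everything needed for large `T` -/
theorem large (ε ρ1 C K1 K : ℝ) (hε : 0 < ε) (hρ : 0 < ρ1) : ∀ᶠ T : ℝ in atTop,
    10 * C * Real.log T ≤ T ^ (3 * ε / 4) ∧ 10 * (6 + 26 * C) * Real.log T ≤ T ^ (ε / 2) ∧
    6 * Real.log T + 4 * |K| * T ^ (3 / 2 : ℝ) + K1 * T ≤ T ^ (2 : ℝ) / 320 ∧
    2 / ρ1 ≤ T ^ (ε / 4) ∧ 4 / ρ1 ≤ T ^ (ε / 8) := by
  have l1 : ∀ (A a : ℝ), 0 < a → ∀ᶠ T : ℝ in atTop, A * Real.log T ≤ T ^ a := by
    intro A a ha
    have h := (isLittleO_log_rpow_atTop ha).bound (show 0 < (|A| + 1)⁻¹ by positivity)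
    filter_upwards [h, eventually_ge_atTop (1 : ℝ)] with x hx hx1
    rw [Real.norm_eq_abs, Real.norm_eq_abs, abs_of_nonneg (Real.log_nonneg hx1),
      abs_of_nonneg (Real.rpow_nonneg (by linarith) _)] at hx
    have h0 : 0 ≤ Real.log x := Real.log_nonneg hx1
    have hA := le_abs_self A
    have hA' : 0 ≤ |A| := abs_nonneg A
    calc A * Real.log x ≤ (|A| + 1) * Real.log x := by gcongr; linarith
      _ ≤ (|A| + 1) * ((|A| + 1)⁻¹ * x ^ a) := by gcongr
      _ = x ^ a := by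
          rw [← mul_assoc, mul_inv_cancel₀ (by positivity), one_mul]
  have l2 : ∀ (A a : ℝ), 0 < a → ∀ᶠ T : ℝ in atTop, A ≤ T ^ a := by
    intro A a ha
    exact (tendsto_rpow_atTop ha).eventually_ge_atTop A
  have hs : ∀ᶠ T : ℝ in atTop, 6 * Real.log T + 4 * |K| * T ^ (3 / 2 : ℝ) + K1 * T ≤
      T ^ (2 : ℝ) / 320 := by
    filter_upwards [l1 6 (1 / 2) (by norm_num), l2 (960 * (1 + 4 * |K| + |K1|)) (1 / 2) (by norm_num),
      eventually_ge_atTop (1 : ℝ)] with T h1 h2 h3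
    have hT0 : 0 < T := by linarith
    have e1 : T ^ (3 / 2 : ℝ) = T * T ^ (1 / 2 : ℝ) := by
      nth_rewrite 2 [← Real.rpow_one T]
      rw [← Real.rpow_add hT0]; norm_num
    have e2 : T ^ (2 : ℝ) = T * T ^ (1 / 2 : ℝ) * T ^ (1 / 2 : ℝ) := by
      nth_rewrite 2 [← Real.rpow_one T]
      rw [← Real.rpow_add hT0, ← Real.rpow_add hT0]; norm_num
    rw [e1, e2]
    set y := T ^ (1 / 2 : ℝ) with hy
    have hK := abs_nonneg K
    have hK1 := abs_nonneg K1
    have hK1' := le_abs_self K1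
    have hy1 : 1 ≤ y := by
      have : (1 : ℝ) ≤ 960 * (1 + 4 * |K| + |K1|) := by linarith
      linarith
    have h4 : K1 * T ≤ |K1| * (T * y) := by
      calc K1 * T ≤ |K1| * T := by gcongr
        _ ≤ |K1| * (T * y) := by gcongr; nlinarith
    have h5 : 6 * Real.log T ≤ T * y := by nlinarith
    have h6 : (1 + 4 * |K| + |K1|) * (T * y) ≤ (T * y) * y / 320 := by
      rw [le_div_iff₀ (by norm_num)]
      have h7 : 0 ≤ T * y := by positivity
      have h8 := mul_le_mul_of_nonneg_right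
        (show 320 * (1 + 4 * |K| + |K1|) ≤ y by nlinarith) h7
      calc (1 + 4 * |K| + |K1|) * (T * y) * 320 = 320 * (1 + 4 * |K| + |K1|) * (T * y) := by ring
        _ ≤ y * (T * y) := h8
        _ = _ := by ring
    nlinarith
  filter_upwards [l1 (10 * C) (3 * ε / 4) (by positivity),
    l1 (10 * (6 + 26 * C)) (ε / 2) (by positivity), hs, l2 (2 / ρ1) (ε / 4) (by positivity),
    l2 (4 / ρ1) (ε / 8) (by positivity)] with T h1 h2 h3 h4 h5
  exact ⟨h1, h2, h3, h4, h5⟩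

end Pool.Agent.U4.JC
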