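import Pool.Agent.U4.JC.Cmp

set_option autoImplicit false

/-!
# Comparison of the Jensen polynomials with the xi function at height `T`, `D ≥ T ^ (2 + ε)`
-/

namespace Pool.Agent.U4.JC

open Complex Filter Topology MeasureTheory Set
open Pool.Agent.H24R2.JP (XX HH Om FF)

/-- the kernel is tiny away from `0`, in terms of `T` -/
theorem far (ε : ℝ) (hε : 0 < ε) (hε1 : ε ≤ 1) : ∃ T0 : ℝ, 400 ≤ T0 ∧
    ∀ (T : ℝ) (D : ℕ) (z : ℂ) (φ : ℝ), T0 ≤ T → T ^ (2 + ε) ≤ D → (D : ℝ) ≤ T ^ (6 : ℝ) →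
    ‖z - I * T‖ ≤ 25 → |φ| ≤ Real.pi → T ^ (-(1 + ε / 4)) ≤ |φ| →
    ‖KK D φ‖ * ‖FF (z ^ 2 * cexp (φ * I)) - XX z‖ ≤ T ^ (-(2 : ℝ)) * ‖HH (I * T)‖ := by
  obtain ⟨C, T1, hC, hT1, hgro⟩ := gro
  obtain ⟨K1, T2, hK1, hT2, hlow⟩ := HH_low
  obtain ⟨K, hK⟩ := Pool.Agent.H24R2.JP.grow Pool.Agent.H24R2.JP.b1
  obtain ⟨T3, hT3⟩ := eventually_atTop.1 (large ε 1 C K1 K hε one_pos)
  refine ⟨max (max T1 T2) (max T3 400), (le_max_right _ _).trans (le_max_right _ _), ?_⟩
  intro T D z φ hT hD1 hD2 hz hφ hφ0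
  have hTT1 : T1 ≤ T := ((le_max_left _ _).trans (le_max_left _ _)).trans hT
  have hTT2 : T2 ≤ T := ((le_max_right _ _).trans (le_max_left _ _)).trans hT
  have hTT3 : T3 ≤ T := ((le_max_left _ _).trans (le_max_right _ _)).trans hT
  have hT400 : 400 ≤ T := ((le_max_right _ _).trans (le_max_right _ _)).trans hT
  obtain ⟨g1, g2, g3, -, -⟩ := hT3 T hTT3
  have hT0 : 0 < T := by linarith
  have hT1' : 1 ≤ T := by linarith
  have hlog : 0 ≤ Real.log T := Real.log_nonneg hT1'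
  have hDT : 1 ≤ T ^ (2 + ε) := Real.one_le_rpow hT1' (by linarith)
  have hD0 : (0 : ℝ) < D := by linarith
  have hD1' : 1 ≤ D := by exact_mod_cast (by linarith : (1 : ℝ) ≤ D)
  have hpi := Real.pi_pos
  have hpi3 := Real.pi_gt_three
  have hpi4 := Real.pi_lt_d2
  set h : ℝ := ‖HH (I * T)‖ with hh
  have hh0 : Real.exp (-(K1 * T)) ≤ h := hlow T hTT2
  have hhp : 0 < h := lt_of_lt_of_le (Real.exp_pos _) hh0
  -- the kernel
  have hc : (1 : ℝ) / 5 ≤ 2 / Real.pi ^ 2 := by
    rw [div_le_div_iff₀ (by norm_num) (by positivity)]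
    nlinarith
  have hker : ‖KK D φ‖ ≤ Real.exp (3 * Real.log T) * Real.exp (-(D * φ ^ 2 / 5)) := by
    refine (ker_bd D hD1' φ hφ).trans ?_
    have h1 : Real.sqrt D ≤ Real.exp (3 * Real.log T) := by
      rw [Real.sqrt_le_left (Real.exp_pos _).le, ← Real.exp_nat_mul]
      refine hD2.trans ?_
      rw [Real.rpow_def_of_pos hT0]
      apply Real.exp_le_exp.2
      push_cast
      linarith
    have h2 : Real.exp 1 * Real.sqrt D / (2 * Real.pi) ≤ Real.exp (3 * Real.log T) := by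
      rw [div_le_iff₀ (by positivity)]
      have := Real.exp_one_lt_d9
      have h3 : Real.exp 1 ≤ 2 * Real.pi := by linarith
      calc Real.exp 1 * Real.sqrt D ≤ (2 * Real.pi) * Real.exp (3 * Real.log T) := by gcongr
        _ = _ := by ring
    have h4 : -(2 / Real.pi ^ 2 * D * φ ^ 2) ≤ -(D * φ ^ 2 / 5) := by
      have h5 : 0 ≤ (D : ℝ) * φ ^ 2 := by positivity
      nlinarith
    gcongr
  -- value of the difference
  have key : ∃ E : ℝ, ‖FF (z ^ 2 * cexp (φ * I)) - XX z‖ ≤ 2 * Real.exp E * h ∧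
      6 * Real.log T + E ≤ D * φ ^ 2 / 5 := by
    have hzn : ‖z‖ ≤ 2 * T := by
      have : ‖z‖ ≤ ‖z - I * T‖ + ‖I * (T : ℂ)‖ := by
        have := norm_add_le (z - I * T) (I * T)
        rwa [sub_add_cancel] at this
      rw [norm_mul, norm_I, one_mul, norm_real, Real.norm_of_nonneg hT0.le] at this
      linarith
    rcases le_or_gt |φ| (1 / 8) with h8 | h8
    · -- moderate angles
      set y : ℝ := T * |φ| with hy
      have hy0 : 0 ≤ y := by positivity
      have hy1 : T ^ (-(ε / 4)) ≤ y := by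
        have : T ^ (-(ε / 4)) = T * T ^ (-(1 + ε / 4)) := by
          nth_rewrite 2 [← Real.rpow_one T]
          rw [← Real.rpow_add hT0]; congr 1; ring
        rw [this, hy]
        gcongr
      refine ⟨C * (26 + y) * Real.log T, ?_, ?_⟩
      · rw [rot]
        set z' := z * cexp (I * ((φ / 2 : ℝ) : ℂ)) with hz'
        have h9 : ‖z' - z‖ ≤ y := by
          refine (rot_dist z φ).trans ?_
          calc ‖z‖ * (|φ| / 2) ≤ 2 * T * (|φ| / 2) := by gcongr
            _ = y := by rw [hy]; ring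
        have h10 : ‖z' - I * T‖ ≤ 25 + y := by
          calc ‖z' - I * T‖ = ‖(z' - z) + (z - I * T)‖ := by congr 1; ring
            _ ≤ ‖z' - z‖ + ‖z - I * T‖ := norm_add_le _ _
            _ ≤ 25 + y := by linarith
        have hy8 : y ≤ T / 8 := by rw [hy]; nlinarith
        have h11 := hgro T z' hTT1 (by linarith)
        have h12 := hgro T z hTT1 (by linarith)
        have h13 : ‖XX z'‖ ≤ Real.exp (C * (26 + y) * Real.log T) * h := by
          refine h11.trans ?_
          have h0 : 1 + ‖z' - I * T‖ ≤ 26 + y := by linarith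
          have : C * (1 + ‖z' - I * T‖) * Real.log T ≤ C * (26 + y) * Real.log T :=
            mul_le_mul_of_nonneg_right (mul_le_mul_of_nonneg_left h0 (by linarith)) hlog
          gcongr
        have h14 : ‖XX z‖ ≤ Real.exp (C * (26 + y) * Real.log T) * h := by
          refine h12.trans ?_
          have h0 : 1 + ‖z - I * T‖ ≤ 26 + y := by linarith
          have : C * (1 + ‖z - I * T‖) * Real.log T ≤ C * (26 + y) * Real.log T :=
            mul_le_mul_of_nonneg_right (mul_le_mul_of_nonneg_left h0 (by linarith)) hlog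
          gcongr
        calc ‖XX z' - XX z‖ ≤ ‖XX z'‖ + ‖XX z‖ := norm_sub_le _ _
          _ ≤ _ := by linarith
      · -- the exponent
        have h15 : T ^ ε * y ^ 2 ≤ D * φ ^ 2 := by
          have e1 : T ^ ε * y ^ 2 = T ^ (2 + ε) * φ ^ 2 := by
            rw [hy, mul_pow, sq_abs, Real.rpow_add hT0]
            have : T ^ (2 : ℝ) = T ^ 2 := by norm_cast
            rw [this]
            ring
          rw [e1]
          gcongr
        have h16 : T ^ (3 * ε / 4) * y ≤ T ^ ε * y ^ 2 := by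
          have e2 : T ^ (3 * ε / 4) = T ^ ε * T ^ (-(ε / 4)) := by
            rw [← Real.rpow_add hT0]; congr 1; ring
          rw [e2]
          have : 0 ≤ T ^ ε := Real.rpow_nonneg hT0.le _
          calc T ^ ε * T ^ (-(ε / 4)) * y ≤ T ^ ε * y * y := by gcongr
            _ = _ := by ring
        have h17 : T ^ (ε / 2) ≤ T ^ ε * y ^ 2 := by
          have e3 : T ^ (ε / 2) = T ^ ε * (T ^ (-(ε / 4))) ^ 2 := by
            rw [← Real.rpow_natCast, ← Real.rpow_mul hT0.le, ← Real.rpow_add hT0]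
            congr 1; push_cast; ring
          rw [e3]
          have h0 : 0 ≤ T ^ ε := Real.rpow_nonneg hT0.le _
          have h00 : 0 ≤ T ^ (-(ε / 4)) := Real.rpow_nonneg hT0.le _
          gcongr
        have h18 : 10 * C * Real.log T * y ≤ T ^ (3 * ε / 4) * y := by gcongr
        nlinarith
    · -- large angles
      refine ⟨4 * |K| * T ^ (3 / 2 : ℝ) + K1 * T, ?_, ?_⟩
      · have hb : ∀ x : ℂ, ‖x‖ ≤ 4 * T ^ 2 → ‖FF x‖ ≤
            Real.exp (4 * |K| * T ^ (3 / 2 : ℝ) + K1 * T) * h := by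
          intro x hx
          have h19 : (1 + ‖x‖) ^ (3 / 4 : ℝ) ≤ 4 * T ^ (3 / 2 : ℝ) := by
            calc (1 + ‖x‖) ^ (3 / 4 : ℝ) ≤ (5 * T ^ 2) ^ (3 / 4 : ℝ) := by
                  apply Real.rpow_le_rpow (by positivity) _ (by norm_num)
                  nlinarith
              _ = 5 ^ (3 / 4 : ℝ) * T ^ (3 / 2 : ℝ) := by
                  rw [Real.mul_rpow (by norm_num) (by positivity), ← Real.rpow_natCast,
                    ← Real.rpow_mul hT0.le]
                  norm_num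
              _ ≤ 4 * T ^ (3 / 2 : ℝ) := by
                  have : (5 : ℝ) ^ (3 / 4 : ℝ) ≤ 4 := by
                    have h20 : (5 : ℝ) ≤ 4 ^ (4 / 3 : ℝ) := by
                      have h21 : (5 : ℝ) = (125 : ℝ) ^ (1 / 3 : ℝ) := by
                        rw [show (125 : ℝ) = 5 ^ (3 : ℝ) by norm_num, ← Real.rpow_mul (by norm_num)]
                        norm_num
                      have h22 : (4 : ℝ) ^ (4 / 3 : ℝ) = (256 : ℝ) ^ (1 / 3 : ℝ) := by
                        rw [show (256 : ℝ) = 4 ^ (4 : ℝ) by norm_num, ← Real.rpow_mul (by norm_num)]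
                        norm_num
                      rw [h21, h22]
                      exact Real.rpow_le_rpow (by norm_num) (by norm_num) (by norm_num)
                    calc (5 : ℝ) ^ (3 / 4 : ℝ) ≤ ((4 : ℝ) ^ (4 / 3 : ℝ)) ^ (3 / 4 : ℝ) :=
                          Real.rpow_le_rpow (by norm_num) h20 (by norm_num)
                      _ = 4 := by rw [← Real.rpow_mul (by norm_num)]; norm_num
                  have : 0 ≤ T ^ (3 / 2 : ℝ) := Real.rpow_nonneg hT0.le _
                  gcongr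
          refine (hK x).trans ?_
          calc Real.exp (K * (1 + ‖x‖) ^ (3 / 4 : ℝ))
              ≤ Real.exp (4 * |K| * T ^ (3 / 2 : ℝ)) := by
                apply Real.exp_le_exp.2
                calc K * (1 + ‖x‖) ^ (3 / 4 : ℝ) ≤ |K| * (1 + ‖x‖) ^ (3 / 4 : ℝ) := by
                      gcongr; exact le_abs_self _
                  _ ≤ |K| * (4 * T ^ (3 / 2 : ℝ)) := by gcongr
                  _ = _ := by ring
            _ = Real.exp (4 * |K| * T ^ (3 / 2 : ℝ) + K1 * T) * Real.exp (-(K1 * T)) := by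
                rw [← Real.exp_add]; congr 1; ring
            _ ≤ _ := by gcongr
        have hz2 : ‖z ^ 2‖ ≤ 4 * T ^ 2 := by
          rw [norm_pow]
          calc ‖z‖ ^ 2 ≤ (2 * T) ^ 2 := by gcongr
            _ = _ := by ring
        have hb1 := hb (z ^ 2 * cexp (φ * I)) (by
          rw [norm_mul, Complex.norm_exp_ofReal_mul_I, mul_one]; exact hz2)
        have hb2 := hb (z ^ 2) hz2
        rw [Pool.Agent.H24R2.JP.b1.2.1] at hb2
        calc ‖FF (z ^ 2 * cexp (φ * I)) - XX z‖ ≤ ‖FF (z ^ 2 * cexp (φ * I))‖ + ‖XX z‖ :=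
              norm_sub_le _ _
          _ ≤ _ := by linarith
      · have h23 : T ^ (2 : ℝ) / 320 ≤ D * φ ^ 2 / 5 := by
          have h24 : T ^ (2 : ℝ) ≤ D :=
            (Real.rpow_le_rpow_of_exponent_le hT1' (by linarith)).trans hD1
          have h25 : (1 : ℝ) / 64 ≤ φ ^ 2 := by
            rw [← sq_abs]
            nlinarith
          have h26 := mul_le_mul h24 h25 (by norm_num) hD0.le
          linarith
        linarith
  obtain ⟨E, hE1, hE2⟩ := key
  have h30 : (2 : ℝ) ≤ Real.exp (Real.log T) := by rw [Real.exp_log hT0]; linarith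
  have h31 : T ^ (-(2 : ℝ)) = Real.exp (-(2 * Real.log T)) := by
    rw [Real.rpow_def_of_pos hT0]; congr 1; ring
  rw [h31]
  calc ‖KK D φ‖ * ‖FF (z ^ 2 * cexp (φ * I)) - XX z‖
      ≤ (Real.exp (3 * Real.log T) * Real.exp (-(D * φ ^ 2 / 5))) * (2 * Real.exp E * h) := by
        gcongr
    _ ≤ (Real.exp (3 * Real.log T) * Real.exp (-(D * φ ^ 2 / 5))) *
        (Real.exp (Real.log T) * Real.exp E * h) := by gcongr
    _ = Real.exp (3 * Real.log T + -(D * φ ^ 2 / 5) + Real.log T + E) * h := by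
        simp only [Real.exp_add]; ring
    _ ≤ Real.exp (-(2 * Real.log T)) * h := by
        gcongr
        linarith

/-- **Comparison.** -/
theorem cmp (ε ρ1 : ℝ) (hε : 0 < ε) (hε1 : ε ≤ 1) (hρ : 0 < ρ1) : ∃ T0 : ℝ, 400 ≤ T0 ∧
    ∀ (T : ℝ) (D : ℕ) (z : ℂ) (M : ℝ), T0 ≤ T → T ^ (2 + ε) ≤ D → (D : ℝ) ≤ T ^ (6 : ℝ) →
    ‖z - I * T‖ ≤ 25 → (∀ w : ℂ, ‖w - z‖ ≤ ρ1 → ‖XX w‖ ≤ M) →
    ‖PF FF D (z ^ 2) - XX z‖ ≤ T ^ (-(ε / 8)) * M + T⁻¹ * ‖HH (I * T)‖ := by
  obtain ⟨T1, hT1, hfar⟩ := far ε hε hε1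
  obtain ⟨T3, hT3⟩ := eventually_atTop.1 (large ε ρ1 1 1 1 hε hρ)
  refine ⟨max T1 T3, hT1.trans (le_max_left _ _), ?_⟩
  intro T D z M hT hD1 hD2 hz hM
  have hTT1 : T1 ≤ T := (le_max_left _ _).trans hT
  have hTT3 : T3 ≤ T := (le_max_right _ _).trans hT
  obtain ⟨-, -, -, g4, g5⟩ := hT3 T hTT3
  have hT400 : 400 ≤ T := hT1.trans hTT1
  have hT0 : 0 < T := by linarith
  have hT1' : 1 ≤ T := by linarith
  have hDT : 1 ≤ T ^ (2 + ε) := Real.one_le_rpow hT1' (by linarith)
  have hD1' : 1 ≤ D := by exact_mod_cast (by linarith : (1 : ℝ) ≤ D)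
  have hpi := Real.pi_pos
  have hpi4 := Real.pi_lt_d2
  have hM0 : 0 ≤ M := (norm_nonneg _).trans (hM z (by simpa using hρ.le))
  have hzn : ‖z‖ ≤ 2 * T := by
    have : ‖z‖ ≤ ‖z - I * T‖ + ‖I * (T : ℂ)‖ := by
      have := norm_add_le (z - I * T) (I * T)
      rwa [sub_add_cancel] at this
    rw [norm_mul, norm_I, one_mul, norm_real, Real.norm_of_nonneg hT0.le] at this
    linarith
  set A : ℝ := T ^ (-(ε / 4)) * (2 / ρ1 * M) with hA
  have hA0 : 0 ≤ A := by positivity
  set B : ℝ := T ^ (-(2 : ℝ)) * ‖HH (I * T)‖ with hB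
  have hB0 : 0 ≤ B := by positivity
  set g : ℝ → ℝ := fun φ => Real.exp 1 * Real.sqrt D / (2 * Real.pi) *
      Real.exp (-(2 / Real.pi ^ 2 * D * φ ^ 2)) with hg
  have hgc : Continuous g := by
    rw [hg]
    fun_prop
  have hg0 : ∀ φ, 0 ≤ g φ := fun φ => by rw [hg]; positivity
  have hFc : Continuous FF := FF_diff.continuous
  have hrep : PF FF D (z ^ 2) - XX z =
      ∫ φ in (-Real.pi)..Real.pi, KK D φ * (FF (z ^ 2 * cexp (φ * I)) - XX z) := by
    have e1 := ker_rep FF FF_diff D hD1' (z ^ 2)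
    have e2 := ker_one D hD1'
    have c1 : Continuous (fun φ : ℝ => KK D φ * FF (z ^ 2 * cexp (φ * I))) := by
      have : Continuous (fun φ : ℝ => FF (z ^ 2 * cexp (φ * I))) := hFc.comp (by fun_prop)
      exact (KK_cont D).mul this
    have c2 : Continuous (fun φ : ℝ => KK D φ * XX z) := (KK_cont D).mul continuous_const
    have e3 : (∫ φ in (-Real.pi)..Real.pi, KK D φ * (FF (z ^ 2 * cexp (φ * I)) - XX z)) =
        (∫ φ in (-Real.pi)..Real.pi, KK D φ * FF (z ^ 2 * cexp (φ * I))) -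
          ∫ φ in (-Real.pi)..Real.pi, KK D φ * XX z := by
      rw [← intervalIntegral.integral_sub (c1.intervalIntegrable _ _) (c2.intervalIntegrable _ _)]
      refine intervalIntegral.integral_congr fun φ _ => ?_
      ring
    rw [e3, ← e1, intervalIntegral.integral_mul_const, e2, one_mul]
  rw [hrep]
  have hpt : ∀ φ : ℝ, φ ∈ Set.Ioc (-Real.pi) Real.pi →
      ‖KK D φ * (FF (z ^ 2 * cexp (φ * I)) - XX z)‖ ≤ g φ * A + B := by
    intro φ hφ
    have hφ' : |φ| ≤ Real.pi := abs_le.2 ⟨hφ.1.le, hφ.2⟩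
    rw [norm_mul]
    rcases le_or_gt (T ^ (-(1 + ε / 4))) |φ| with h1 | h1
    · have := hfar T D z φ hTT1 hD1 hD2 hz hφ' h1
      have h2 : 0 ≤ g φ * A := mul_nonneg (hg0 φ) hA0
      linarith
    · have h2 : ‖FF (z ^ 2 * cexp (φ * I)) - XX z‖ ≤ A := by
        rw [rot]
        have h3 : ‖z * cexp (I * ((φ / 2 : ℝ) : ℂ)) - z‖ ≤ T ^ (-(ε / 4)) := by
          refine (rot_dist z φ).trans ?_
          have e1 : T ^ (-(ε / 4)) = T * T ^ (-(1 + ε / 4)) := by
            nth_rewrite 2 [← Real.rpow_one T]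
            rw [← Real.rpow_add hT0]; congr 1; ring
          rw [e1]
          calc ‖z‖ * (|φ| / 2) ≤ 2 * T * (|φ| / 2) := by gcongr
            _ = T * |φ| := by ring
            _ ≤ _ := by gcongr
        have h4 : T ^ (-(ε / 4)) ≤ ρ1 / 2 := by
          rw [Real.rpow_neg hT0.le, inv_le_comm₀ (Real.rpow_pos_of_pos hT0 _) (by positivity),
            inv_div]
          exact g4
        refine (close hρ hM (h3.trans h4)).trans ?_
        rw [hA]
        calc 2 / ρ1 * M * ‖z * cexp (I * ((φ / 2 : ℝ) : ℂ)) - z‖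
            ≤ 2 / ρ1 * M * T ^ (-(ε / 4)) := by gcongr
          _ = _ := by ring
      have h5 := ker_bd D hD1' φ hφ'
      calc ‖KK D φ‖ * ‖FF (z ^ 2 * cexp (φ * I)) - XX z‖ ≤ g φ * A := by
            have h6 : ‖KK D φ‖ ≤ g φ := h5
            gcongr
        _ ≤ g φ * A + B := by linarith
  have hint := intervalIntegral.norm_integral_le_of_norm_le (μ := volume)
    (by linarith : -Real.pi ≤ Real.pi) (Eventually.of_forall hpt)
    (((hgc.mul continuous_const).add continuous_const).intervalIntegrable _ _)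
  refine hint.trans ?_
  have i1 : IntervalIntegrable (fun φ => g φ * A) volume (-Real.pi) Real.pi :=
    (hgc.mul continuous_const).intervalIntegrable _ _
  have i2 : IntervalIntegrable (fun _ : ℝ => B) volume (-Real.pi) Real.pi :=
    continuous_const.intervalIntegrable _ _
  have e0 : (∫ φ in (-Real.pi)..Real.pi, (g φ * A + B)) =
      (∫ φ in (-Real.pi)..Real.pi, g φ) * A + (Real.pi - -Real.pi) * B := by
    rw [intervalIntegral.integral_add i1 i2, intervalIntegral.integral_mul_const,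
      intervalIntegral.integral_const, smul_eq_mul]
  rw [e0]
  have hG := gauss D hD1'
  have h7 : (∫ φ in (-Real.pi)..Real.pi, g φ) * A ≤ 2 * A := by
    gcongr
  have h8 : 2 * A ≤ T ^ (-(ε / 8)) * M := by
    have e1 : T ^ (-(ε / 8)) = T ^ (-(ε / 4)) * T ^ (ε / 8) := by
      rw [← Real.rpow_add hT0]; congr 1; ring
    rw [e1, hA]
    have h9 : 0 ≤ T ^ (-(ε / 4)) := Real.rpow_nonneg hT0.le _
    calc 2 * (T ^ (-(ε / 4)) * (2 / ρ1 * M)) = T ^ (-(ε / 4)) * (4 / ρ1) * M := by ring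
      _ ≤ T ^ (-(ε / 4)) * T ^ (ε / 8) * M := by gcongr
  have h10 : (Real.pi - -Real.pi) * B ≤ T⁻¹ * ‖HH (I * T)‖ := by
    rw [hB]
    have e2 : T ^ (-(2 : ℝ)) = T⁻¹ * T⁻¹ := by
      rw [Real.rpow_neg hT0.le, ← mul_inv]
      congr 1
      have : T ^ (2 : ℝ) = T ^ 2 := by norm_cast
      rw [this]; ring
    rw [e2]
    have h11 : (Real.pi - -Real.pi) * T⁻¹ ≤ 1 := by
      rw [mul_inv_le_iff₀ hT0]
      linarith
    have h12 : 0 ≤ T⁻¹ * ‖HH (I * T)‖ := by positivity
    calc (Real.pi - -Real.pi) * (T⁻¹ * T⁻¹ * ‖HH (I * T)‖)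
        = ((Real.pi - -Real.pi) * T⁻¹) * (T⁻¹ * ‖HH (I * T)‖) := by ring
      _ ≤ 1 * (T⁻¹ * ‖HH (I * T)‖) := by gcongr
      _ = _ := one_mul _
  linarith

end Pool.Agent.U4.JC
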