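import Pool.Agent.H24R2.JP.B1
import Pool.Agent.U4.JC.Fact

set_option autoImplicit false

/-!
# The Jensen polynomial of degree `D` as an average over rotations
-/

namespace Pool.Agent.U4.JC

open Complex Filter Topology MeasureTheory Set Polynomial
open Pool.Agent.H24R2.JP (XX FF gam jensen Hyperbolic)

/-- The Jensen polynomial of degree `D` of an entire function, scaled: it tends to `F`. -/
noncomputable def PF (F : ℂ → ℂ) (D : ℕ) (x : ℂ) : ℂ :=
  ∑ j ∈ Finset.range (D + 1), (D.choose j : ℂ) * iteratedDeriv j F 0 * (x / D) ^ j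

/-- The kernel. -/
noncomputable def KK (D : ℕ) (φ : ℝ) : ℂ :=
  ((D.factorial / ((D : ℝ) ^ D * (2 * Real.pi)) : ℝ) : ℂ) * (cexp (D * cexp (φ * I)) * cexp (-(D * (φ * I))))

theorem iter_H (F : ℂ → ℂ) (hF : Differentiable ℂ F) (D : ℕ) (hD : 1 ≤ D) (x : ℂ) :
    iteratedDeriv D (fun v => cexp (D * v) * F (x * v)) 0 = (D : ℂ) ^ D * PF F D x := by
  have hD0 : (D : ℂ) ≠ 0 := by
    have : D ≠ 0 := by omega
    exact_mod_cast this
  have h1 : ContDiff ℂ D (fun v : ℂ => cexp (D * v)) := by fun_prop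
  have h2 : ContDiff ℂ D (fun v : ℂ => F (x * v)) := by
    have : Differentiable ℂ (fun v : ℂ => F (x * v)) := hF.comp (by fun_prop)
    exact this.contDiff
  rw [iteratedDeriv_fun_mul h1.contDiffAt h2.contDiffAt, ← Finset.sum_range_reflect]
  unfold PF
  rw [Finset.mul_sum]
  refine Finset.sum_congr rfl fun j hj => ?_
  have hj' : j ≤ D := by
    have := Finset.mem_range.1 hj
    omega
  have e1 : D + 1 - 1 - j = D - j := by omega
  have e2 : D - (D - j) = j := by omega
  rw [e1, e2, iteratedDeriv_cexp_const_mul, iteratedDeriv_comp_const_mul hF.contDiff,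
    Nat.choose_symm hj']
  simp only [mul_zero, Complex.exp_zero, mul_one]
  have e3 : (D : ℂ) ^ D = (D : ℂ) ^ (D - j) * (D : ℂ) ^ j := by
    rw [← pow_add]; congr 1; omega
  rw [e3, div_pow]
  field_simp

theorem ker_rep (F : ℂ → ℂ) (hF : Differentiable ℂ F) (D : ℕ) (hD : 1 ≤ D) (x : ℂ) :
    PF F D x = ∫ φ in (-Real.pi)..Real.pi, KK D φ * F (x * cexp (φ * I)) := by
  have hD0 : (D : ℂ) ≠ 0 := by
    have : D ≠ 0 := by omega
    exact_mod_cast this
  set Hf : ℂ → ℂ := fun v => cexp (D * v) * F (x * v) with hHf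
  have hHd : Differentiable ℂ Hf := by
    have h2 : Differentiable ℂ (fun v : ℂ => F (x * v)) := hF.comp (by fun_prop)
    have h1 : Differentiable ℂ (fun v : ℂ => cexp (D * v)) := by fun_prop
    exact h1.mul h2
  have hc := hHd.differentiableOn.circleIntegral_one_div_sub_center_pow_smul (c := 0)
    (R := 1) one_pos D
  rw [iter_H F hF D hD x] at hc
  have hfac : (D.factorial : ℂ) ≠ 0 := by exact_mod_cast D.factorial_ne_zero
  have hpi : (Real.pi : ℂ) ≠ 0 := by exact_mod_cast Real.pi_ne_zero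
  -- the circle integral
  have e1 : (∮ z in C(0, 1), (1 / (z - 0) ^ (D + 1)) • Hf z) =
      ∫ φ in (0 : ℝ)..(2 * Real.pi), I * (cexp (-(D * (φ * I))) * Hf (cexp (φ * I))) := by
    unfold circleIntegral
    refine intervalIntegral.integral_congr fun φ _ => ?_
    simp only [deriv_circleMap, circleMap, sub_zero, zero_add, ofReal_one, one_mul, smul_eq_mul]
    have h3 : cexp (φ * I) ≠ 0 := Complex.exp_ne_zero _
    have h4 : cexp (-(D * (φ * I))) = (cexp (φ * I) ^ D)⁻¹ := by
      rw [Complex.exp_neg, ← Complex.exp_nat_mul]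
    rw [h4, pow_succ]
    field_simp
  have e2 : (∫ φ in (0 : ℝ)..(2 * Real.pi), I * (cexp (-(D * (φ * I))) * Hf (cexp (φ * I)))) =
      I * ∫ φ in (-Real.pi)..Real.pi, cexp (-(D * (φ * I))) * Hf (cexp (φ * I)) := by
    rw [intervalIntegral.integral_const_mul]
    congr 1
    have hper : Function.Periodic
        (fun φ : ℝ => cexp (-(D * (φ * I))) * Hf (cexp (φ * I))) (2 * Real.pi) := by
      intro φ
      have h5 : cexp (((φ + 2 * Real.pi : ℝ) : ℂ) * I) = cexp (φ * I) := by
        push_cast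
        rw [add_mul, Complex.exp_add, Complex.exp_two_pi_mul_I, mul_one]
      have h6 : cexp (-(D * (((φ + 2 * Real.pi : ℝ) : ℂ) * I))) = cexp (-(D * (φ * I))) := by
        rw [Complex.exp_neg, Complex.exp_neg, Complex.exp_nat_mul, Complex.exp_nat_mul, h5]
      show cexp (-(D * (((φ + 2 * Real.pi : ℝ) : ℂ) * I))) *
        Hf (cexp (((φ + 2 * Real.pi : ℝ) : ℂ) * I)) = _
      rw [h5, h6]
    have := hper.intervalIntegral_add_eq 0 (-Real.pi)
    rw [zero_add] at this
    rw [this]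
    congr 1
    ring
  rw [e1, e2, smul_eq_mul] at hc
  have hI : I ≠ 0 := I_ne_zero
  have hc2 : (∫ φ in (-Real.pi)..Real.pi, cexp (-(D * (φ * I))) * Hf (cexp (φ * I))) =
      2 * Real.pi / D.factorial * ((D : ℂ) ^ D * PF F D x) := by
    have : I * (∫ φ in (-Real.pi)..Real.pi, cexp (-(D * (φ * I))) * Hf (cexp (φ * I))) =
        I * (2 * Real.pi / D.factorial * ((D : ℂ) ^ D * PF F D x)) := by
      rw [hc]; ring
    exact mul_left_cancel₀ hI this
  have hDD : (D : ℂ) ^ D ≠ 0 := pow_ne_zero _ hD0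
  have e3 : (∫ φ in (-Real.pi)..Real.pi, KK D φ * F (x * cexp (φ * I))) =
      ((D.factorial / ((D : ℝ) ^ D * (2 * Real.pi)) : ℝ) : ℂ) *
        ∫ φ in (-Real.pi)..Real.pi, cexp (-(D * (φ * I))) * Hf (cexp (φ * I)) := by
    rw [← intervalIntegral.integral_const_mul]
    refine intervalIntegral.integral_congr fun φ _ => ?_
    simp only [KK, hHf]
    ring
  rw [e3, hc2]
  push_cast
  field_simp

theorem PF_zero (F : ℂ → ℂ) (D : ℕ) : PF F D 0 = F 0 := by
  unfold PF
  rw [Finset.sum_eq_single 0]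
  · simp
  · intro j _ hj
    simp [hj]
  · simp

theorem ker_one (D : ℕ) (hD : 1 ≤ D) : (∫ φ in (-Real.pi)..Real.pi, KK D φ) = 1 := by
  have h := ker_rep (fun _ => (1 : ℂ)) (differentiable_const _) D hD 0
  rw [PF_zero] at h
  simpa using h.symm

theorem KK_cont (D : ℕ) : Continuous (KK D) := by
  unfold KK
  fun_prop

theorem ker_bd (D : ℕ) (hD : 1 ≤ D) (φ : ℝ) (hφ : |φ| ≤ Real.pi) :
    ‖KK D φ‖ ≤ Real.exp 1 * Real.sqrt D / (2 * Real.pi) *
      Real.exp (-(2 / Real.pi ^ 2 * D * φ ^ 2)) := by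
  have hD0 : (0 : ℝ) < D := by exact_mod_cast hD
  have hpi := Real.pi_pos
  unfold KK
  rw [norm_mul, norm_mul, Complex.norm_real, Complex.norm_exp, Complex.norm_exp,
    Real.norm_of_nonneg (by positivity)]
  have h1 : ((D : ℂ) * cexp (φ * I)).re = D * Real.cos φ := by
    rw [Complex.exp_mul_I]
    simp [Complex.cos_ofReal_re, Complex.sin_ofReal_im]
  have h2 : (-((D : ℂ) * (φ * I))).re = 0 := by simp
  rw [h1, h2, Real.exp_zero, mul_one]
  have h3 := Real.cos_le_one_sub_mul_cos_sq hφ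
  have h4 := fact_le_sqrt D hD
  have h5 : (D.factorial : ℝ) / ((D : ℝ) ^ D * (2 * Real.pi)) ≤
      Real.exp 1 * Real.sqrt D / (2 * Real.pi) * Real.exp (-D) := by
    rw [div_le_iff₀ (by positivity)]
    have h6 : (D.factorial : ℝ) = D.factorial * Real.exp D * Real.exp (-D) := by
      rw [mul_assoc, ← Real.exp_add, add_neg_cancel, Real.exp_zero, mul_one]
    rw [h6]
    calc (D.factorial : ℝ) * Real.exp D * Real.exp (-D)
        ≤ Real.exp 1 * Real.sqrt D * (D : ℝ) ^ D * Real.exp (-D) := by gcongr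
      _ = _ := by field_simp
  calc (D.factorial : ℝ) / ((D : ℝ) ^ D * (2 * Real.pi)) * Real.exp (D * Real.cos φ)
      ≤ Real.exp 1 * Real.sqrt D / (2 * Real.pi) * Real.exp (-D) *
        Real.exp (D * (1 - 2 / Real.pi ^ 2 * φ ^ 2)) := by gcongr
    _ = _ := by
        rw [mul_assoc, ← Real.exp_add]
        congr 2
        ring

/-- derivative of a Jensen polynomial -/
theorem jensen_derivative (d n : ℕ) :
    derivative (jensen (d + 1) n) = Polynomial.C ((d + 1 : ℕ) : ℝ) * jensen d (n + 1) := by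
  unfold jensen
  rw [derivative_sum, Finset.sum_range_succ', Finset.mul_sum]
  have h0 : derivative (Polynomial.C (((d + 1).choose 0 : ℝ) * gam (n + 0)) *
      (Polynomial.X : ℝ[X]) ^ 0) = 0 := by
    rw [pow_zero, mul_one, derivative_C]
  rw [h0, add_zero]
  refine Finset.sum_congr rfl fun j _ => ?_
  have h1 : ((d + 1).choose (j + 1) : ℝ) * ((j + 1 : ℕ) : ℝ) = ((d + 1 : ℕ) : ℝ) * (d.choose j : ℝ) := by
    have := Nat.add_one_mul_choose_eq d j
    have h2 : ((d + 1) * d.choose j : ℕ) = (d + 1).choose (j + 1) * (j + 1) := this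
    exact_mod_cast h2.symm
  have h3 : n + (j + 1) = n + 1 + j := by ring
  rw [h3, derivative_C_mul_X_pow, ← mul_assoc, ← C_mul, Nat.add_sub_cancel]
  congr 2
  calc ((d + 1).choose (j + 1) : ℝ) * gam (n + 1 + j) * ((j + 1 : ℕ) : ℝ)
      = ((d + 1).choose (j + 1) : ℝ) * ((j + 1 : ℕ) : ℝ) * gam (n + 1 + j) := by ring
    _ = _ := by rw [h1]; ring

theorem PF_jensen (D : ℕ) (x : ℂ) : PF FF D x = aeval (x / D) (jensen D 0) := by
  unfold PF jensen
  rw [map_sum]
  refine Finset.sum_congr rfl fun j _ => ?_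
  rw [Pool.Agent.H24R2.JP.b1.2.2.2 j]
  simp

theorem jensen_hasDeriv (D d m : ℕ) (a b u : ℂ) :
    HasDerivAt (fun u : ℂ => aeval ((a + b * u) / D) (jensen (d + 1) m))
      (b / D * ((d + 1 : ℕ) : ℂ) * aeval ((a + b * u) / D) (jensen d (m + 1))) u := by
  have h1 : HasDerivAt (fun u : ℂ => (a + b * u) / D) (b / D) u := by
    have := (((hasDerivAt_id u).const_mul b).const_add a).div_const (D : ℂ)
    simpa using this
  have h2 := (jensen (d + 1) m).hasDerivAt_aeval ((a + b * u) / (D : ℂ))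
  have h3 := HasDerivAt.comp u h2 h1
  refine HasDerivAt.congr_deriv (f := fun u : ℂ => aeval ((a + b * u) / D) (jensen (d + 1) m)) h3 ?_
  rw [jensen_derivative, map_mul, aeval_C]
  simp only [Complex.coe_algebraMap, ofReal_natCast]
  ring

theorem PF_iter (D n : ℕ) (hn : n ≤ D) (a b u : ℂ) :
    iteratedDeriv n (fun u : ℂ => PF FF D (a + b * u)) u =
      (b / D) ^ n * (D.descFactorial n : ℂ) * aeval ((a + b * u) / D) (jensen (D - n) n) := by
  induction n generalizing u with
  | zero => simp [PF_jensen]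
  | succ n ih =>
    have hn' : n ≤ D := by omega
    rw [iteratedDeriv_succ]
    have e1 : iteratedDeriv n (fun u : ℂ => PF FF D (a + b * u)) = fun u =>
        (b / D) ^ n * (D.descFactorial n : ℂ) * aeval ((a + b * u) / D) (jensen (D - n) n) := by
      funext v
      exact ih hn' v
    rw [e1]
    obtain ⟨d, hd⟩ : ∃ d, D - n = d + 1 := ⟨D - n - 1, by omega⟩
    have hd' : D - (n + 1) = d := by omega
    rw [hd, hd']
    have h1 := (jensen_hasDeriv D d n a b u).const_mul ((b / D) ^ n * (D.descFactorial n : ℂ))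
    rw [h1.deriv]
    rw [Nat.descFactorial_succ, hd]
    push_cast
    ring

end Pool.Agent.U4.JC
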