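import Pool.Agent.U4.JC.Abs

set_option autoImplicit false

/-!
# Abstract converse: the lower bound for Taylor's integral
-/

namespace Pool.Agent.U4.JC

open Complex Filter Topology MeasureTheory Set
open Pool.Agent.H986R2.K4 (S_SAB S_LL S_LR S_TAY)

lemma fact' (n : ℕ) (hn : 1 ≤ n) :
    Real.exp (-1) ≤ (n : ℝ) ^ n * Real.exp (-n) / ((n - 1).factorial : ℝ) := by
  have h := fact_le n hn
  have h1 : (n.factorial : ℝ) = n * ((n - 1).factorial : ℝ) := by
    rw [← Nat.mul_factorial_pred (by omega : n ≠ 0)]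
    push_cast
    ring
  have hn0 : (0 : ℝ) < n := by exact_mod_cast hn
  have hf : (0 : ℝ) < ((n - 1).factorial : ℝ) := by exact_mod_cast Nat.factorial_pos _
  rw [le_div_iff₀ hf]
  rw [h1] at h
  have h2 : ((n - 1).factorial : ℝ) * Real.exp n ≤ Real.exp 1 * (n : ℝ) ^ n := by
    have : (n : ℝ) * (((n - 1).factorial : ℝ) * Real.exp n) ≤ n * (Real.exp 1 * (n : ℝ) ^ n) := by
      calc (n : ℝ) * (((n - 1).factorial : ℝ) * Real.exp n)
          = (n : ℝ) * ((n - 1).factorial : ℝ) * Real.exp n := by ring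
        _ ≤ Real.exp 1 * n * (n : ℝ) ^ n := h
        _ = _ := by ring
    exact le_of_mul_le_mul_left this hn0
  have h3 : ((n - 1).factorial : ℝ) = ((n - 1).factorial : ℝ) * Real.exp n * Real.exp (-n) := by
    rw [mul_assoc, ← Real.exp_add, add_neg_cancel, Real.exp_zero, mul_one]
  calc Real.exp (-1) * ((n - 1).factorial : ℝ)
      = Real.exp (-1) * (((n - 1).factorial : ℝ) * Real.exp n * Real.exp (-n)) := by rw [← h3]
    _ ≤ Real.exp (-1) * (Real.exp 1 * (n : ℝ) ^ n * Real.exp (-n)) := by gcongr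
    _ = (Real.exp (-1) * Real.exp 1) * ((n : ℝ) ^ n * Real.exp (-n)) := by ring
    _ = _ := by rw [← Real.exp_add]; simp

lemma low (hS : S_SAB) (hLL : S_LL) (hL : S_LR) (K r' r1 : ℝ) (hK : 1 ≤ K) (h1 : 2 / 5 ≤ r')
    (h2 : r' ≤ r1) (h3 : r1 < 1 / 2) (η0 ε : ℝ) (hη0 : 0 < η0) (hη0' : η0 ≤ (1 / 2 - r1) / 16)
    (hε : 0 < ε) :
    ∃ η1 L0 : ℝ, 0 < η1 ∧ 1 ≤ L0 ∧ ∀ (L H : ℝ) (n : ℕ) (p : ℂ → ℂ) (xp : ℝ), L0 ≤ L → 0 < H →
      r' * L ≤ n → (n : ℝ) ≤ r1 * L → Differentiable ℂ p →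
      (∀ u : ℂ, |u.re| ≤ 11 → |u.im| ≤ 11 → ‖p u‖ ≤ Real.exp (K * L) * H) →
      (∀ u : ℂ, 3 / 4 ≤ u.re → u.re ≤ 11 → |u.im| ≤ 11 → p u ≠ 0 ∧
        ‖logDeriv p u - (L : ℂ)‖ ≤ η1 * L ∧ Real.exp ((u.re - η1) * L) * H ≤ ‖p u‖ ∧
        ‖p u‖ ≤ Real.exp ((u.re + η1) * L) * H) →
      (∀ u : ℂ, 0 < u.re → u.re ≤ 10 → |u.im| ≤ 10 → iteratedDeriv n p u ≠ 0) →
      1 / 2 - (1 / 2 - r1) / 8 ≤ xp → xp < 1 / 2 →
      Real.exp (-(2 * ε * L)) * (Real.exp (L * xp - 1) * H) ≤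
        ‖∫ v in (0 : ℝ)..(xp - 2 * η0), iteratedDeriv n p ((xp : ℂ) - v) *
          ((v : ℂ) ^ (n - 1) / ((n - 1).factorial : ℂ))‖ := by
  have hg0 : 0 < 1 / 2 - r1 := by linarith
  obtain ⟨η, n0, hη, hn0, hLR⟩ := hL ε η0 (1 / 2 - r1) hε hη0 (by linarith) hg0
  obtain ⟨η1, L1, hη1, hL1, hGR⟩ := gr hS hLL K η0 (min η ε) hK hη0 (by linarith) (lt_min hη hε)
  refine ⟨η1, max L1 (5 / 2 * (n0 + 1)), hη1, le_trans hL1 (le_max_left _ _), ?_⟩
  intro L H n p xp hL hH hn1 hn2 hd P1 P2 P4 hx1 hx2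
  have hLL1 : L1 ≤ L := le_trans (le_max_left _ _) hL
  have hLn0 : 5 / 2 * ((n0 : ℝ) + 1) ≤ L := le_trans (le_max_right _ _) hL
  have hLpos : 0 < L := by linarith
  have hn1r : 2 / 5 * L ≤ n := by
    have : 2 / 5 * L ≤ r' * L := by gcongr
    linarith
  have hn2r : (n : ℝ) ≤ 1 / 2 * L := by
    have : r1 * L ≤ 1 / 2 * L := by gcongr
    linarith
  have hnn0 : n0 ≤ n := by
    have : (n0 : ℝ) ≤ n := by linarith
    exact_mod_cast this
  have hn1' : 1 ≤ n := le_trans hn0 hnn0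
  have hnpos : (0 : ℝ) < n := by exact_mod_cast hn1'
  set r : ℝ := n / L with hr
  have hrOm : r * L = n := by rw [hr]; field_simp
  have hr0 : 0 < r := by positivity
  have hrr' : r' ≤ r := by rw [hr, le_div_iff₀ hLpos]; exact hn1
  have hrr1 : r ≤ r1 := by rw [hr, div_le_iff₀ hLpos]; exact hn2
  set g := iteratedDeriv n p with hg
  have hgd : Differentiable ℂ g := diff_iter hd n
  set x : ℝ := xp - 2 * η0 with hx
  set Y : ℝ := x / r with hY
  have hrY : r * Y = x := by rw [hY]; field_simp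
  have hx0 : r1 + 3 / 4 * (1 / 2 - r1) ≤ x := by rw [hx]; linarith
  have hY1 : 1 + (1 / 2 - r1) ≤ Y := by
    rw [hY, le_div_iff₀ hr0]
    have a1 : (1 + (1 / 2 - r1)) * r ≤ (1 + (1 / 2 - r1)) * r1 := by gcongr
    have a2 : (1 / 2 - r1) * r1 ≤ (1 / 2 - r1) * (1 / 2) := by gcongr
    linarith
  have hY2 : Y ≤ 100 := by
    rw [hY, div_le_iff₀ hr0]
    linarith
  set F : ℂ → ℂ := fun y => g ((xp : ℂ) - r * y) with hF
  -- the control
  have hctl := hGR L H n p hLL1 hH hn1r hn2r hd P1 P2 P4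
  have key := hLR n Y F hnn0 hY1 hY2 (by
    intro y hy0 hyY w hw
    have hw' : ‖w - y‖ < η0 := by simpa [dist_eq_norm] using hw
    have hre : |w.re - y| < η0 := by
      have := abs_re_le_norm (w - y)
      simp only [sub_re, ofReal_re] at this
      linarith
    have him : |w.im| < η0 := by
      have := abs_im_le_norm (w - y)
      simp only [sub_im, ofReal_im, sub_zero] at this
      linarith
    have hre' := abs_lt.1 hre
    have hure : ((xp : ℂ) - r * w).re = xp - r * w.re := by simp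
    have huim : ((xp : ℂ) - r * w).im = -(r * w.im) := by simp
    have hry : r * y ≤ x := by rw [← hrY]; gcongr
    have hry0 : 0 ≤ r * y := by positivity
    have hr12 : r ≤ 1 / 2 := by linarith
    have hrη : r * η0 ≤ 1 / 2 * η0 := by gcongr
    have hrw1 : r * w.re ≤ r * (y + η0) := by
      gcongr
      linarith
    have hrw2 : r * (y - η0) ≤ r * w.re := by
      gcongr
      linarith
    rw [mul_add] at hrw1
    rw [mul_sub] at hrw2
    have c1 : η0 ≤ ((xp : ℂ) - r * w).re := by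
      rw [hure]
      linarith
    have c2 : ((xp : ℂ) - r * w).re ≤ 3 := by
      rw [hure]
      linarith
    have c3 : |((xp : ℂ) - r * w).im| ≤ 3 := by
      rw [huim, abs_neg, abs_mul, abs_of_pos hr0]
      have : r * |w.im| ≤ 1 / 2 * η0 := by gcongr
      linarith
    obtain ⟨d1, d2, -⟩ := hctl _ c1 c2 c3
    have hFd : HasDerivAt F (deriv g ((xp : ℂ) - r * w) * (-(r : ℂ))) w := by
      have h0 : HasDerivAt (fun y : ℂ => (xp : ℂ) - r * y) (-(r : ℂ)) w := by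
        simpa using ((hasDerivAt_id w).const_mul (r : ℂ)).const_sub (xp : ℂ)
      exact HasDerivAt.comp w (hgd _).hasDerivAt h0
    refine ⟨hFd.differentiableAt, d1, ?_⟩
    have e2 : logDeriv F w + n = -(r : ℂ) * (logDeriv g ((xp : ℂ) - r * w) - (L : ℂ)) := by
      rw [logDeriv_apply, logDeriv_apply, hFd.deriv]
      have e3 : (n : ℂ) = (r : ℂ) * (L : ℂ) := by
        rw [← ofReal_mul, hrOm]; simp
      rw [e3]
      show deriv g (xp - r * w) * -(r : ℂ) / g (xp - r * w) + (r : ℂ) * (L : ℂ) = _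
      ring
    rw [e2, norm_mul, norm_neg, norm_real, Real.norm_eq_abs, abs_of_pos hr0]
    calc r * ‖logDeriv g ((xp : ℂ) - r * w) - (L : ℂ)‖ ≤ r * (min η ε * L) := by
          gcongr
      _ = min η ε * n := by rw [← hrOm]; ring
      _ ≤ η * n := by gcongr; exact min_le_left _ _)
  -- value at 1
  have hF1 : Real.exp (-(ε * L)) * (L ^ n * (Real.exp (L * (xp - r)) * H)) ≤ ‖F 1‖ := by
    have e1 : F 1 = g ((xp - r : ℝ) : ℂ) := by
      show g ((xp : ℂ) - r * 1) = _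
      congr 1
      push_cast
      ring
    have hxr : x ≤ xp := by rw [hx]; linarith
    obtain ⟨-, -, d3⟩ := hctl ((xp - r : ℝ) : ℂ) (by
      rw [ofReal_re]; linarith) (by rw [ofReal_re]; linarith) (by simp)
    rw [e1]
    rw [ofReal_re] at d3
    refine le_trans ?_ d3
    have hm : min η ε ≤ ε := min_le_right _ _
    gcongr
  -- substitution
  have hsub : ‖∫ v in (0 : ℝ)..x, g ((xp : ℂ) - v) * ((v : ℂ) ^ (n - 1) / ((n - 1).factorial : ℂ))‖ =
      r ^ n / ((n - 1).factorial : ℝ) * ‖∫ y in (0 : ℝ)..Y, F y * (y : ℂ) ^ (n - 1)‖ := by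
    have e1 := intervalIntegral.smul_integral_comp_mul_left (a := 0) (b := Y)
      (fun v : ℝ => g ((xp : ℂ) - v) * ((v : ℂ) ^ (n - 1) / ((n - 1).factorial : ℂ))) r
    rw [mul_zero, hrY] at e1
    rw [← e1]
    have e2 : ∀ y : ℝ, g ((xp : ℂ) - ((r * y : ℝ) : ℂ)) *
        (((r * y : ℝ) : ℂ) ^ (n - 1) / ((n - 1).factorial : ℂ)) =
        ((r ^ (n - 1) / ((n - 1).factorial : ℝ) : ℝ) : ℂ) * (F y * (y : ℂ) ^ (n - 1)) := by
      intro y
      rw [hF]
      push_cast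
      rw [mul_pow]
      ring
    simp_rw [e2]
    rw [intervalIntegral.integral_const_mul, norm_smul, norm_mul, norm_real, Real.norm_eq_abs,
      Real.norm_eq_abs, abs_of_pos hr0, abs_of_nonneg (by positivity), ← mul_assoc]
    congr 1
    rw [← mul_div_assoc]
    congr 1
    rw [← pow_succ']
    congr 1
    omega
  rw [hsub]
  have hfac := fact' n hn1'
  have hf : (0 : ℝ) < ((n - 1).factorial : ℝ) := by exact_mod_cast Nat.factorial_pos _
  have hεn : Real.exp (-(ε * L)) ≤ Real.exp (-(ε * n)) := by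
    apply Real.exp_le_exp.2
    have : ε * n ≤ ε * L := by gcongr; linarith
    linarith
  calc Real.exp (-(2 * ε * L)) * (Real.exp (L * xp - 1) * H)
      = Real.exp (-1) * (Real.exp (-(ε * L)) * Real.exp (-(ε * L)) * (Real.exp (L * xp) * H)) := by
        have e1 : Real.exp (L * xp - 1) = Real.exp (-1) * Real.exp (L * xp) := by
          rw [← Real.exp_add]; congr 1; ring
        have e2 : Real.exp (-(2 * ε * L)) = Real.exp (-(ε * L)) * Real.exp (-(ε * L)) := by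
          rw [← Real.exp_add]; congr 1; ring
        rw [e1, e2]; ring
    _ ≤ ((n : ℝ) ^ n * Real.exp (-n) / ((n - 1).factorial : ℝ)) *
        (Real.exp (-(ε * n)) * Real.exp (-(ε * L)) * (Real.exp (L * xp) * H)) := by
        gcongr
    _ = r ^ n / ((n - 1).factorial : ℝ) * (Real.exp (-(ε * n)) *
        (Real.exp (-(ε * L)) * (L ^ n * (Real.exp (L * (xp - r)) * H)))) := by
        have e1 : Real.exp (L * (xp - r)) = Real.exp (-n) * Real.exp (L * xp) := by
          rw [← Real.exp_add, ← hrOm]; congr 1; ring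
        have e2 : (n : ℝ) ^ n = r ^ n * L ^ n := by rw [← mul_pow, hrOm]
        rw [e1, e2]
        ring
    _ ≤ r ^ n / ((n - 1).factorial : ℝ) * (Real.exp (-(ε * n)) * ‖F 1‖) := by gcongr
    _ ≤ _ := by gcongr

end Pool.Agent.U4.JC
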