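import Pool.Agent.U4.JC.Cmp2
import Pool.Agent.U4.JC.Abs
import Pool.Agent.H986R2.K4.VdC
import Pool.Agent.H986R2.K4.PL

set_option autoImplicit false

/-!
# The polynomial in the coordinate `u`, and the properties `P1`, `P3`, `P4`, `P5`
-/

namespace Pool.Agent.U4.JC

open Complex Filter Topology MeasureTheory Set
open Pool.Agent.H24R2.JP (XX HH Om FF jensen Hyperbolic)

/-- The point `x = xp² - T² + 2 i T u`. -/
noncomputable def xx (T xp : ℝ) (u : ℂ) : ℂ := ((xp ^ 2 - T ^ 2 : ℝ) : ℂ) + (2 * I * T) * u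

/-- The polynomial `P_D` in the coordinate `u`. -/
noncomputable def pp (D : ℕ) (T xp : ℝ) (u : ℂ) : ℂ := PF FF D (xx T xp u)

theorem pp_diff (D : ℕ) (T xp : ℝ) : Differentiable ℂ (pp D T xp) := by
  unfold pp xx PF
  fun_prop

theorem sqrt_near (w δ : ℂ) (hw : w ≠ 0) : ∃ z : ℂ, z ^ 2 = w ^ 2 + δ ∧ ‖z - w‖ ≤ ‖δ‖ / ‖w‖ := by
  obtain ⟨z, hz⟩ := IsAlgClosed.exists_pow_nat_eq (w ^ 2 + δ) (n := 2) (by norm_num)
  have hwp : 0 < ‖w‖ := norm_pos_iff.2 hw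
  have key : ∀ y : ℂ, y ^ 2 = w ^ 2 + δ → ‖y - w‖ ≤ ‖y + w‖ → ‖y - w‖ ≤ ‖δ‖ / ‖w‖ := by
    intro y hy h1
    have h2 : ‖w‖ ≤ ‖y + w‖ := by
      have h3 : ‖2 * w‖ ≤ ‖y + w‖ + ‖y - w‖ := by
        have e : 2 * w = (y + w) - (y - w) := by ring
        rw [e]
        exact norm_sub_le _ _
      rw [norm_mul] at h3
      have h4 : ‖(2 : ℂ)‖ = 2 := by simp
      rw [h4] at h3
      linarith
    rw [le_div_iff₀ hwp]
    have h5 : ‖y - w‖ * ‖y + w‖ = ‖δ‖ := by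
      rw [← norm_mul]
      congr 1
      linear_combination hy
    calc ‖y - w‖ * ‖w‖ ≤ ‖y - w‖ * ‖y + w‖ := by gcongr
      _ = ‖δ‖ := h5
  rcases le_total ‖z - w‖ ‖z + w‖ with h | h
  · exact ⟨z, hz, key z hz h⟩
  · refine ⟨-z, by rw [neg_pow]; simpa using hz, key (-z) (by rw [neg_pow]; simpa using hz) ?_⟩
    have e1 : ‖-z - w‖ = ‖z + w‖ := by rw [← norm_neg]; congr 1; ring
    have e2 : ‖-z + w‖ = ‖z - w‖ := by rw [← norm_neg]; congr 1; ring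
    rw [e1, e2]
    exact h

theorem pt (T xp : ℝ) (u : ℂ) (hT : 2000 ≤ T) (hxp : |xp| ≤ 1) (hu : ‖u‖ ≤ 20) :
    ∃ z : ℂ, z ^ 2 = xx T xp u ∧ ‖z - (I * T + u)‖ ≤ 1000 / T := by
  have hT0 : 0 < T := by linarith
  have hw : T / 2 ≤ ‖I * (T : ℂ) + u‖ := by
    have h1 := norm_sub_norm_le (I * (T : ℂ)) (-u)
    rw [norm_neg, sub_neg_eq_add, norm_mul, norm_I, one_mul, norm_real,
      Real.norm_of_nonneg hT0.le] at h1
    linarith
  have hw0 : I * (T : ℂ) + u ≠ 0 := by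
    intro h
    rw [h, norm_zero] at hw
    linarith
  obtain ⟨z, h1, h2⟩ := sqrt_near (I * T + u) (((xp ^ 2 : ℝ) : ℂ) - u ^ 2) hw0
  refine ⟨z, ?_, h2.trans ?_⟩
  · rw [h1]
    unfold xx
    push_cast
    have hI : I ^ 2 = -1 := I_sq
    linear_combination (T : ℂ) ^ 2 * hI
  · have h3 : ‖((xp ^ 2 : ℝ) : ℂ) - u ^ 2‖ ≤ 500 := by
      refine (norm_sub_le _ _).trans ?_
      rw [norm_real, Real.norm_of_nonneg (by positivity), norm_pow]
      have h4 : xp ^ 2 ≤ 1 := by rw [← sq_abs]; exact pow_le_one₀ (abs_nonneg _) hxp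
      have h5 : ‖u‖ ^ 2 ≤ 20 ^ 2 := by gcongr
      linarith
    calc ‖((xp ^ 2 : ℝ) : ℂ) - u ^ 2‖ / ‖I * (T : ℂ) + u‖ ≤ 500 / (T / 2) := by gcongr
      _ = 1000 / T := by field_simp; norm_num

/-- comparison in the coordinate `u` -/
theorem cmpu (ε ρ1 : ℝ) (hε : 0 < ε) (hε1 : ε ≤ 1) (hρ : 0 < ρ1) : ∃ T0 : ℝ, 2000 ≤ T0 ∧
    ∀ (T : ℝ) (D : ℕ) (xp : ℝ) (u z : ℂ) (M : ℝ), T0 ≤ T → T ^ (2 + ε) ≤ D → (D : ℝ) ≤ T ^ (6 : ℝ) →
    ‖u‖ ≤ 20 → z ^ 2 = xx T xp u → ‖z - (I * T + u)‖ ≤ 1000 / T →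
    (∀ w : ℂ, ‖w - z‖ ≤ ρ1 → ‖XX w‖ ≤ M) →
    ‖pp D T xp u - XX z‖ ≤ T ^ (-(ε / 8)) * M + T⁻¹ * ‖HH (I * T)‖ := by
  obtain ⟨T0, hT0, h⟩ := cmp ε ρ1 hε hε1 hρ
  refine ⟨max T0 2000, le_max_right _ _, ?_⟩
  intro T D xp u z M hT hD1 hD2 hu hz hzu hM
  have h1 : T0 ≤ T := (le_max_left _ _).trans hT
  have h2 : 2000 ≤ T := (le_max_right _ _).trans hT
  unfold pp
  rw [← hz]
  refine h T D z M h1 hD1 hD2 ?_ hM
  have h3 : 1000 / T ≤ 1 := by rw [div_le_one (by linarith)]; linarith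
  calc ‖z - I * T‖ = ‖(z - (I * T + u)) + u‖ := by congr 1; ring
    _ ≤ ‖z - (I * T + u)‖ + ‖u‖ := norm_add_le _ _
    _ ≤ 25 := by linarith

theorem Om_tendsto : Tendsto Om atTop atTop := by
  unfold Pool.Agent.H24R2.JP.Om
  exact Real.tendsto_log_atTop.atTop_div_const (by norm_num)

theorem ev_exp (C a : ℝ) (ha : 0 < a) : ∀ᶠ T : ℝ in atTop, C ≤ Real.exp (a * Om T) :=
  (Real.tendsto_exp_atTop.comp (Om_tendsto.const_mul_atTop ha)).eventually_ge_atTop C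

theorem T_exp {T : ℝ} (hT : 0 < T) (b : ℝ) : T ^ b = Real.exp (2 * b * Om T) := by
  rw [Real.rpow_def_of_pos hT]
  congr 1
  unfold Pool.Agent.H24R2.JP.Om
  ring

theorem Tinv_exp {T : ℝ} (hT : 0 < T) : T⁻¹ = Real.exp (-(2 * Om T)) := by
  have := T_exp hT (-1)
  rw [Real.rpow_neg_one] at this
  rw [this]
  congr 1
  ring

theorem norm_re_im {u : ℂ} {a b : ℝ} (h1 : |u.re| ≤ a) (h2 : |u.im| ≤ b) : ‖u‖ ≤ a + b :=
  (norm_le_abs_re_add_abs_im u).trans (by linarith)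

theorem norm_box {u : ℂ} (h1 : |u.re| ≤ 12) (h2 : |u.im| ≤ 12) : ‖u‖ ≤ 17 := by
  rw [Complex.norm_eq_sqrt_sq_add_sq]
  apply Real.sqrt_le_iff.mpr
  refine ⟨by norm_num, ?_⟩
  have h3 : u.re ^ 2 ≤ 12 ^ 2 := by rw [← sq_abs]; gcongr
  have h4 : u.im ^ 2 ≤ 12 ^ 2 := by rw [← sq_abs]; gcongr
  nlinarith

theorem P1 (ε : ℝ) (hε : 0 < ε) (hε1 : ε ≤ 1) : ∃ K T0 : ℝ, 1 ≤ K ∧ 2000 ≤ T0 ∧
    ∀ (T : ℝ) (D : ℕ) (xp : ℝ), T0 ≤ T → T ^ (2 + ε) ≤ D → (D : ℝ) ≤ T ^ (6 : ℝ) → |xp| ≤ 1 →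
    ∀ u : ℂ, |u.re| ≤ 11 → |u.im| ≤ 11 →
      ‖pp D T xp u‖ ≤ Real.exp (K * Om T) * ‖HH (I * T)‖ := by
  obtain ⟨K, T1, hT1, hxb⟩ := Pool.Agent.H24R2.DZ.xb 25
  obtain ⟨T2, hT2, hc⟩ := cmpu ε 1 hε hε1 one_pos
  obtain ⟨T3, hT3⟩ := eventually_atTop.1 (ev_exp 3 1 one_pos)
  refine ⟨2 * |K| + 1, max T1 (max T2 T3), by have := abs_nonneg K; linarith,
    hT2.trans ((le_max_left _ _).trans (le_max_right _ _)), ?_⟩
  intro T D xp hT hD1 hD2 hxp u hu1 hu2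
  have hTT1 : T1 ≤ T := (le_max_left _ _).trans hT
  have hTT2 : T2 ≤ T := ((le_max_left _ _).trans (le_max_right _ _)).trans hT
  have hTT3 : T3 ≤ T := ((le_max_right _ _).trans (le_max_right _ _)).trans hT
  have hT2000 : 2000 ≤ T := hT2.trans hTT2
  have hT0 : 0 < T := by linarith
  have hOm : 0 ≤ Om T := by
    unfold Pool.Agent.H24R2.JP.Om
    have := Real.log_nonneg (by linarith : (1 : ℝ) ≤ T)
    linarith
  have hlog : Real.log T = 2 * Om T := by unfold Pool.Agent.H24R2.JP.Om; ring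
  have hun : ‖u‖ ≤ 17 := norm_box (by linarith) (by linarith)
  obtain ⟨z, hz1, hz2⟩ := pt T xp u hT2000 hxp (by linarith)
  have h3 : 1000 / T ≤ 1 := by rw [div_le_one hT0]; linarith
  set H := ‖HH (I * T)‖ with hH
  have hH0 : 0 ≤ H := norm_nonneg _
  set M : ℝ := Real.exp (2 * |K| * Om T) * H with hM
  have hb : ∀ w : ℂ, ‖w - z‖ ≤ 1 → ‖XX w‖ ≤ M := by
    intro w hw
    have h4 : ‖w - I * T‖ ≤ 25 := by
      calc ‖w - I * T‖ = ‖(w - z) + (z - (I * T + u)) + u‖ := by congr 1; ring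
        _ ≤ ‖(w - z) + (z - (I * T + u))‖ + ‖u‖ := norm_add_le _ _
        _ ≤ ‖w - z‖ + ‖z - (I * T + u)‖ + ‖u‖ := by gcongr; exact norm_add_le _ _
        _ ≤ 25 := by linarith
    have h5 := (hxb T (w - I * T) hTT1 h4).1
    have e1 : I * (T : ℂ) + (w - I * T) = w := by ring
    rw [e1, hlog] at h5
    refine h5.trans ?_
    rw [hM]
    have : K * (2 * Om T) ≤ 2 * |K| * Om T := by
      have h6 : K * (2 * Om T) ≤ |K| * (2 * Om T) := by gcongr; exact le_abs_self K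
      linarith
    gcongr
  have h7 := hc T D xp u z M hTT2 hD1 hD2 (by linarith) hz1 hz2 hb
  have h8 := hb z (by simp)
  have hM0 : 0 ≤ M := (norm_nonneg _).trans h8
  have h9 : T ^ (-(ε / 8)) ≤ 1 := Real.rpow_le_one_of_one_le_of_nonpos (by linarith) (by linarith)
  have h10 : T⁻¹ ≤ 1 := inv_le_one_of_one_le₀ (by linarith)
  have h11 : H ≤ M := by
    rw [hM]
    have : 1 ≤ Real.exp (2 * |K| * Om T) := Real.one_le_exp (by positivity)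
    nlinarith
  have h12 : ‖pp D T xp u‖ ≤ 3 * M := by
    calc ‖pp D T xp u‖ = ‖(pp D T xp u - XX z) + XX z‖ := by congr 1; ring
      _ ≤ ‖pp D T xp u - XX z‖ + ‖XX z‖ := norm_add_le _ _
      _ ≤ (1 * M + 1 * H) + M := by
          refine add_le_add (h7.trans ?_) h8
          gcongr
      _ ≤ 3 * M := by linarith
  refine h12.trans ?_
  have h13 := hT3 T hTT3
  calc 3 * M ≤ Real.exp (1 * Om T) * M := by gcongr
    _ = _ := by
        rw [hM, ← mul_assoc, ← Real.exp_add]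
        congr 2
        ring

theorem P3 (g0 ε2 ε : ℝ) (hg0 : 0 < g0) (hg01 : g0 ≤ 1 / 10) (hε2 : 0 < ε2) (hε2' : ε2 ≤ 1 / 8)
    (hε : 0 < ε) (hε1 : ε ≤ 1)
    (hV : ∃ C : ℝ, 0 < C ∧ ∀ t : ℝ, 2 ≤ t →
      ‖riemannZeta (1 - ((ε2 * (1 - g0 / 4) : ℝ) : ℂ) + t * I)‖ ≤
        C * t ^ (g0 / 8 * (ε2 * (1 - g0 / 4)))) : ∃ T0 : ℝ, 2000 ≤ T0 ∧
    ∀ (T : ℝ) (D : ℕ) (xp : ℝ), T0 ≤ T → T ^ (2 + ε) ≤ D → (D : ℝ) ≤ T ^ (6 : ℝ) → |xp| ≤ 1 →
    ∀ u : ℂ, |u.re| ≤ 1 / 2 - ε2 → |u.im| ≤ 1 →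
      ‖pp D T xp u‖ ≤ Real.exp ((1 / 2 - ε2 + 3 / 4 * (g0 * ε2)) * Om T) * ‖HH (I * T)‖ := by
  obtain ⟨C, hC, hV⟩ := hV
  set e : ℝ := ε2 * (1 - g0 / 4) with he
  have he0 : 0 < e := by rw [he]; nlinarith
  have hee : e ≤ ε2 := by rw [he]; nlinarith
  set x0 : ℝ := 1 / 2 - e with hx0
  obtain ⟨C', T1, hC', hT1, hPL⟩ := Pool.Agent.H986R2.K4.pl Pool.Agent.H986R2.K4.hh x0
    (g0 / 8 * e) C 2 2 (by linarith) (by linarith) (by positivity) (by nlinarith) hC (by norm_num)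
    (by norm_num) (by
      intro t ht
      have := hV t ht
      have e1 : (1 / 2 : ℂ) + ((x0 : ℝ) : ℂ) + t * I = 1 - (e : ℂ) + t * I := by
        rw [hx0]; push_cast; ring
      rw [e1]; exact this)
  obtain ⟨ρ1, hρ, hρ1, hρ2⟩ : ∃ ρ1 : ℝ, 0 < ρ1 ∧ ρ1 ≤ ε2 * g0 / 8 ∧ ρ1 ≤ 1 / 2 :=
    ⟨min (ε2 * g0 / 8) (1 / 2), lt_min (by positivity) (by norm_num), min_le_left _ _,
      min_le_right _ _⟩
  obtain ⟨T2, hT2, hc⟩ := cmpu ε ρ1 hε hε1 hρ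
  obtain ⟨T3, hT3⟩ := eventually_atTop.1 (ev_exp (2 * C' + 1) (g0 * ε2 / 4) (by positivity))
  refine ⟨max (max T1 T2) (max T3 (1000 / ρ1)),
    hT2.trans ((le_max_right _ _).trans (le_max_left _ _)), ?_⟩
  intro T D xp hT hD1 hD2 hxp u hu1 hu2
  have hTT1 : T1 ≤ T := ((le_max_left _ _).trans (le_max_left _ _)).trans hT
  have hTT2 : T2 ≤ T := ((le_max_right _ _).trans (le_max_left _ _)).trans hT
  have hTT3 : T3 ≤ T := ((le_max_left _ _).trans (le_max_right _ _)).trans hT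
  have hTT4 : 1000 / ρ1 ≤ T := ((le_max_right _ _).trans (le_max_right _ _)).trans hT
  have hT2000 : 2000 ≤ T := hT2.trans hTT2
  have hT0 : 0 < T := by linarith
  have hOm : 0 ≤ Om T := by
    unfold Pool.Agent.H24R2.JP.Om
    have := Real.log_nonneg (by linarith : (1 : ℝ) ≤ T)
    linarith
  have hun : ‖u‖ ≤ 20 := (norm_re_im hu1 hu2).trans (by linarith)
  obtain ⟨z, hz1, hz2⟩ := pt T xp u hT2000 hxp hun
  have h3 : 1000 / T ≤ ρ1 := by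
    rw [div_le_iff₀ hT0]
    rw [div_le_iff₀ hρ] at hTT4
    linarith
  set H := ‖HH (I * T)‖ with hH
  have hH0 : 0 ≤ H := norm_nonneg _
  set M : ℝ := C' * T ^ (g0 / 8 * e) * (Real.exp (x0 * Om T) * H) with hM
  have hb : ∀ w : ℂ, ‖w - z‖ ≤ ρ1 → ‖XX w‖ ≤ M := by
    intro w hw
    have h4 : ‖(w - I * T) - u‖ ≤ 2 * ρ1 := by
      calc ‖(w - I * T) - u‖ = ‖(w - z) + (z - (I * T + u))‖ := by congr 1; ring
        _ ≤ ‖w - z‖ + ‖z - (I * T + u)‖ := norm_add_le _ _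
        _ ≤ 2 * ρ1 := by linarith
    have h5 := (abs_re_le_norm ((w - I * T) - u)).trans h4
    have h6 := (abs_im_le_norm ((w - I * T) - u)).trans h4
    rw [sub_re] at h5
    rw [sub_im] at h6
    have h5' := abs_le.1 h5
    have h6' := abs_le.1 h6
    have hu1' := abs_le.1 hu1
    have hu2' := abs_le.1 hu2
    have hx0' : x0 = 1 / 2 - ε2 + ε2 * g0 / 4 := by rw [hx0, he]; ring
    have h7 := hPL T (w - I * T) hTT1 (by rw [abs_le]; constructor <;> linarith)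
      (by rw [abs_le]; constructor <;> linarith)
    have e1 : I * (T : ℂ) + (w - I * T) = w := by ring
    rw [e1] at h7
    exact h7
  have h7 := hc T D xp u z M hTT2 hD1 hD2 hun hz1 hz2 hb
  have h8 := hb z (by simpa using hρ.le)
  have hM0 : 0 ≤ M := (norm_nonneg _).trans h8
  have h9 : T ^ (-(ε / 8)) ≤ 1 := Real.rpow_le_one_of_one_le_of_nonpos (by linarith) (by linarith)
  have h10 : T⁻¹ ≤ 1 := inv_le_one_of_one_le₀ (by linarith)
  have h12 : ‖pp D T xp u‖ ≤ 2 * M + H := by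
    calc ‖pp D T xp u‖ = ‖(pp D T xp u - XX z) + XX z‖ := by congr 1; ring
      _ ≤ ‖pp D T xp u - XX z‖ + ‖XX z‖ := norm_add_le _ _
      _ ≤ (1 * M + 1 * H) + M := by
          refine add_le_add (h7.trans ?_) h8
          gcongr
      _ = 2 * M + H := by ring
  refine h12.trans ?_
  have h13 := hT3 T hTT3
  have h14 : M ≤ C' * Real.exp ((1 / 2 - ε2 + g0 * ε2 / 2) * Om T) * H := by
    rw [hM, T_exp hT0]
    have h15 : Real.exp (2 * (g0 / 8 * e) * Om T) * Real.exp (x0 * Om T) ≤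
        Real.exp ((1 / 2 - ε2 + g0 * ε2 / 2) * Om T) := by
      rw [← Real.exp_add]
      apply Real.exp_le_exp.2
      have hx0' : x0 = 1 / 2 - ε2 + ε2 * g0 / 4 := by rw [hx0, he]; ring
      rw [← add_mul, hx0']
      have h16 : g0 * e ≤ g0 * ε2 := by gcongr
      have h17 : 2 * (g0 / 8 * e) + (1 / 2 - ε2 + ε2 * g0 / 4) ≤ 1 / 2 - ε2 + g0 * ε2 / 2 := by
        linarith
      gcongr
    calc C' * Real.exp (2 * (g0 / 8 * e) * Om T) * (Real.exp (x0 * Om T) * H)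
        = C' * (Real.exp (2 * (g0 / 8 * e) * Om T) * Real.exp (x0 * Om T)) * H := by ring
      _ ≤ _ := by gcongr
  have h18 : 1 ≤ Real.exp ((1 / 2 - ε2 + g0 * ε2 / 2) * Om T) := by
    apply Real.one_le_exp
    have : 0 ≤ 1 / 2 - ε2 + g0 * ε2 / 2 := by
      have : 0 ≤ g0 * ε2 := by positivity
      linarith
    positivity
  calc 2 * M + H ≤ 2 * (C' * Real.exp ((1 / 2 - ε2 + g0 * ε2 / 2) * Om T) * H) +
        Real.exp ((1 / 2 - ε2 + g0 * ε2 / 2) * Om T) * H := by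
        have : 1 * H ≤ Real.exp ((1 / 2 - ε2 + g0 * ε2 / 2) * Om T) * H := by gcongr
        linarith
    _ = (2 * C' + 1) * Real.exp ((1 / 2 - ε2 + g0 * ε2 / 2) * Om T) * H := by ring
    _ ≤ Real.exp (g0 * ε2 / 4 * Om T) * Real.exp ((1 / 2 - ε2 + g0 * ε2 / 2) * Om T) * H := by
        gcongr
    _ = _ := by
        rw [← Real.exp_add]
        congr 2
        ring

theorem P4 (D n : ℕ) (T xp : ℝ) (hT : 0 < T) (hD : 1 ≤ D) (hn : n ≤ D)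
    (h : Hyperbolic (jensen (D - n) n)) (u : ℂ) (hu : 0 < u.re) :
    iteratedDeriv n (pp D T xp) u ≠ 0 := by
  have e1 : pp D T xp = fun u : ℂ => PF FF D (((xp ^ 2 - T ^ 2 : ℝ) : ℂ) + (2 * I * T) * u) := rfl
  rw [e1, PF_iter D n hn]
  have hDc : (D : ℂ) ≠ 0 := by
    have : D ≠ 0 := by omega
    exact_mod_cast this
  have hTc : (T : ℂ) ≠ 0 := by exact_mod_cast hT.ne'
  refine mul_ne_zero (mul_ne_zero (pow_ne_zero _ (div_ne_zero ?_ hDc)) ?_) ?_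
  · exact mul_ne_zero (mul_ne_zero two_ne_zero I_ne_zero) hTc
  · have := Nat.descFactorial_pos.2 hn
    exact_mod_cast this.ne'
  · intro h0
    have h1 := h _ h0
    have h2 : ((((xp ^ 2 - T ^ 2 : ℝ) : ℂ) + (2 * I * T) * u) / (D : ℂ)).im = 2 * T * u.re / D := by
      have e2 : ((((xp ^ 2 - T ^ 2 : ℝ) : ℂ) + (2 * I * T) * u) / (D : ℂ)) =
          ((((xp ^ 2 - T ^ 2 : ℝ) : ℂ) + (2 * I * T) * u) / ((D : ℝ) : ℂ)) := by push_cast; ring
      rw [e2, div_ofReal_im]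
      congr 1
      rw [add_im, ofReal_im, zero_add]
      have e3 : (2 * I * (T : ℂ)) * u = ((2 * T : ℝ) : ℂ) * (I * u) := by push_cast; ring
      rw [e3, im_ofReal_mul, I_mul_im]
    rw [h2] at h1
    have hD0 : (0 : ℝ) < D := by exact_mod_cast hD
    have h3 : 0 < 2 * T * u.re / D := by positivity
    linarith

theorem P5 (ε : ℝ) (hε : 0 < ε) (hε1 : ε ≤ 1) : ∃ T0 : ℝ, 2000 ≤ T0 ∧
    ∀ (T : ℝ) (D : ℕ) (xp : ℝ), T0 ≤ T → T ^ (2 + ε) ≤ D → (D : ℝ) ≤ T ^ (6 : ℝ) → 0 ≤ xp →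
    xp ≤ 1 / 2 → XX (I * T + (xp : ℂ)) = 0 →
      ‖pp D T xp xp‖ ≤ Real.exp ((1 / 2 - ε / 8) * Om T) * ‖HH (I * T)‖ := by
  obtain ⟨t1, ht1, hZ⟩ := Pool.Agent.H986R2.K4.a1 (ε / 64) (by positivity)
  obtain ⟨C', T1, hC', hT1, hPL⟩ := Pool.Agent.H986R2.K4.pl Pool.Agent.H986R2.K4.hh
    (1 / 2 + ε / 32) (ε / 64) 1 t1 1 (by positivity) (by linarith) (by positivity) (by linarith)
    one_pos (by linarith) le_rfl (by
      intro t ht
      have e1 : ((1 / 2 : ℂ) + ((1 / 2 + ε / 32 : ℝ) : ℂ) + t * I).re = 1 + ε / 32 := by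
        simp
        ring
      have e2 : ((1 / 2 : ℂ) + ((1 / 2 + ε / 32 : ℝ) : ℂ) + t * I).im = t := by simp
      obtain ⟨-, -, -, h4⟩ := hZ ((1 / 2 : ℂ) + ((1 / 2 + ε / 32 : ℝ) : ℂ) + t * I)
        (by rw [e1]; linarith) (by rw [e2]; exact ht)
      rw [e2] at h4
      rw [one_mul]
      exact h4)
  obtain ⟨T2, hT2, hc⟩ := cmpu ε (ε / 64) hε hε1 (by positivity)
  obtain ⟨T3, hT3⟩ := eventually_atTop.1 (ev_exp (C' + 1) (ε / 16) (by positivity))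
  refine ⟨max T1 (max T2 T3), hT2.trans ((le_max_left _ _).trans (le_max_right _ _)), ?_⟩
  intro T D xp hT hD1 hD2 hxp0 hxp1 hzero
  have hTT1 : T1 ≤ T := (le_max_left _ _).trans hT
  have hTT2 : T2 ≤ T := ((le_max_left _ _).trans (le_max_right _ _)).trans hT
  have hTT3 : T3 ≤ T := ((le_max_right _ _).trans (le_max_right _ _)).trans hT
  have hT2000 : 2000 ≤ T := hT2.trans hTT2
  have hT0 : 0 < T := by linarith
  have hOm : 0 ≤ Om T := by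
    unfold Pool.Agent.H24R2.JP.Om
    have := Real.log_nonneg (by linarith : (1 : ℝ) ≤ T)
    linarith
  set H := ‖HH (I * T)‖ with hH
  have hH0 : 0 ≤ H := norm_nonneg _
  set M : ℝ := C' * T ^ (ε / 64) * (Real.exp ((1 / 2 + ε / 32) * Om T) * H) with hM
  have hxn : ‖(xp : ℂ)‖ ≤ 1 := by
    rw [norm_real, Real.norm_of_nonneg hxp0]; linarith
  have hb : ∀ w : ℂ, ‖w - (I * T + (xp : ℂ))‖ ≤ ε / 64 → ‖XX w‖ ≤ M := by
    intro w hw
    have e0 : w - (I * T + (xp : ℂ)) = (w - I * T) - (xp : ℂ) := by ring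
    rw [e0] at hw
    have h5 := (abs_re_le_norm ((w - I * T) - (xp : ℂ))).trans hw
    have h6 := (abs_im_le_norm ((w - I * T) - (xp : ℂ))).trans hw
    rw [sub_re, ofReal_re] at h5
    rw [sub_im, ofReal_im, sub_zero] at h6
    have h5' := abs_le.1 h5
    have h7 := hPL T (w - I * T) hTT1 (by rw [abs_le]; constructor <;> linarith)
      (h6.trans (by linarith))
    have e1 : I * (T : ℂ) + (w - I * T) = w := by ring
    rw [e1] at h7
    exact h7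
  have hz1 : (I * (T : ℂ) + (xp : ℂ)) ^ 2 = xx T xp xp := by
    unfold xx
    push_cast
    have hI : I ^ 2 = -1 := I_sq
    linear_combination (T : ℂ) ^ 2 * hI
  have h7 := hc T D xp xp (I * T + (xp : ℂ)) M hTT2 hD1 hD2 (by linarith) hz1 (by
    rw [sub_self, norm_zero]; positivity) hb
  rw [hzero, sub_zero] at h7
  refine h7.trans ?_
  have h13 := hT3 T hTT3
  have hM0 : 0 ≤ M := by rw [hM]; positivity
  have h8 : T ^ (-(ε / 8)) * M = C' * Real.exp ((1 / 2 - 3 * ε / 16) * Om T) * H := by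
    rw [hM, T_exp hT0, T_exp hT0]
    have : Real.exp (2 * -(ε / 8) * Om T) * (C' * Real.exp (2 * (ε / 64) * Om T) *
        (Real.exp ((1 / 2 + ε / 32) * Om T) * H)) = C' * (Real.exp (2 * -(ε / 8) * Om T) *
        Real.exp (2 * (ε / 64) * Om T) * Real.exp ((1 / 2 + ε / 32) * Om T)) * H := by ring
    rw [this, ← Real.exp_add, ← Real.exp_add]
    congr 3
    ring
  have h9 : T⁻¹ * H ≤ Real.exp ((1 / 2 - 3 * ε / 16) * Om T) * H := by
    rw [Tinv_exp hT0]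
    have : -(2 * Om T) ≤ (1 / 2 - 3 * ε / 16) * Om T := by nlinarith
    gcongr
  rw [h8]
  calc C' * Real.exp ((1 / 2 - 3 * ε / 16) * Om T) * H + T⁻¹ * H
      ≤ C' * Real.exp ((1 / 2 - 3 * ε / 16) * Om T) * H +
        Real.exp ((1 / 2 - 3 * ε / 16) * Om T) * H := by linarith
    _ = (C' + 1) * Real.exp ((1 / 2 - 3 * ε / 16) * Om T) * H := by ring
    _ ≤ Real.exp (ε / 16 * Om T) * Real.exp ((1 / 2 - 3 * ε / 16) * Om T) * H := by gcongr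
    _ = _ := by
        rw [← Real.exp_add]
        congr 2
        ring

end Pool.Agent.U4.JC
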